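import Mathlib

namespace Pool.Agent.P.MP_fe901c_an

variable {Ω : Type} [TopologicalSpace Ω]

/-- The modulus `|f|`, as a complex-valued continuous function. -/
noncomputable def modulus (f : C(Ω, ℂ)) : C(Ω, ℂ) :=
  ⟨fun x => ((‖f x‖ : ℝ) : ℂ), Complex.continuous_ofReal.comp f.continuous.norm⟩

/-- The order `u + P ≤ v + P` of the problem (for real-valued `u`, `v`). -/
def LeMod (P : Ideal C(Ω, ℂ)) (u v : C(Ω, ℂ)) : Prop :=
  (v - u) - modulus (v - u) ∈ P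

/-- Archimedean equivalence of nonzero elements of `C(Ω) / P`. -/
def Arch (P : Ideal C(Ω, ℂ)) (a b : {a : C(Ω, ℂ) ⧸ P // a ≠ 0}) : Prop :=
  ∃ f g : C(Ω, ℂ), Ideal.Quotient.mk P f = a.1 ∧ Ideal.Quotient.mk P g = b.1 ∧
    ∃ n : ℕ, LeMod P (modulus f) (n • modulus g) ∧ LeMod P (modulus g) (n • modulus f)

end Pool.Agent.P.MP_fe901c_an
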