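import Pool.Agent.P.MP_fe901c_an.Defs

set_option autoImplicit false

/-! The order and the archimedean relation of the statement are the ones of the problem. -/

namespace Pool.Agent.P.MP_fe901c_an.AE

variable {Ω : Type} [TopologicalSpace Ω] {P : Ideal C(Ω, ℂ)}

theorem mod_apply (f : C(Ω, ℂ)) (x : Ω) : modulus f x = ((‖f x‖ : ℝ) : ℂ) := rfl

/-- prime ideals are absolutely convex -/
theorem conv (hP : P.IsPrime) {g h : C(Ω, ℂ)} (hle : ∀ x, ‖g x‖ ≤ ‖h x‖) (hh : h ∈ P) :
    g ∈ P := by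
  have hb : ∀ y, ‖g y ^ 2 / h y‖ ≤ ‖h y‖ := fun y => by
    rcases eq_or_ne (h y) 0 with h0 | h0
    · simp [h0]
    · rw [norm_div, norm_pow, div_le_iff₀ (norm_pos_iff.2 h0)]
      nlinarith [hle y, norm_nonneg (g y)]
  have hc : Continuous fun y => g y ^ 2 / h y := by
    rw [continuous_iff_continuousAt]
    intro x
    rcases eq_or_ne (h x) 0 with h0 | h0
    · have h1 : Filter.Tendsto (fun y => ‖h y‖) (nhds x) (nhds 0) := by
        have := h.continuous.norm.tendsto x
        simpa [h0] using this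
      have h2 := squeeze_zero_norm hb h1
      unfold ContinuousAt
      simpa [h0] using h2
    · exact ((g.continuous.pow 2).continuousAt).div h.continuous.continuousAt h0
  have hm : g * g = (⟨_, hc⟩ : C(Ω, ℂ)) * h := by
    ext y
    rcases eq_or_ne (h y) 0 with h0 | h0
    · have : g y = 0 := norm_le_zero_iff.1 (by simpa [h0] using hle y)
      simp [this]
    · simp only [ContinuousMap.mul_apply, ContinuousMap.coe_mk]
      field_simp
  have : g * g ∈ P := hm ▸ P.mul_mem_left _ hh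
  exact (hP.mem_or_mem this).elim id id

theorem mod_sub (hP : P.IsPrime) {f g : C(Ω, ℂ)} (h : f - g ∈ P) :
    modulus f - modulus g ∈ P := by
  refine conv hP (fun x => ?_) h
  rw [ContinuousMap.sub_apply, ContinuousMap.sub_apply, mod_apply, mod_apply,
    ← Complex.ofReal_sub, Complex.norm_real]
  exact abs_norm_sub_norm_le _ _

theorem le_congr (hP : P.IsPrime) {u u' v v' : C(Ω, ℂ)} (hu : u - u' ∈ P) (hv : v - v' ∈ P)
    (h : LeMod P u v) : LeMod P u' v' := by
  have h1 : (v - u) - (v' - u') ∈ P := by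
    have := P.sub_mem hv hu
    rwa [show v - v' - (u - u') = (v - u) - (v' - u') by ring] at this
  have h2 := P.sub_mem (P.add_mem h (mod_sub hP h1)) h1
  unfold LeMod
  rwa [show v - u - modulus (v - u) + (modulus (v - u) - modulus (v' - u')) - (v - u - (v' - u'))
    = v' - u' - modulus (v' - u') by ring] at h2

theorem mod_neg (w : C(Ω, ℂ)) : modulus (-w) = modulus w := by
  ext x; simp [mod_apply]

theorem le_total (hP : P.IsPrime) {u v : C(Ω, ℂ)} (hu : ∀ x, ∃ r : ℝ, u x = r)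
    (hv : ∀ x, ∃ r : ℝ, v x = r) : LeMod P u v ∨ LeMod P v u := by
  have h0 : ((v - u) - modulus (v - u)) * ((u - v) - modulus (u - v)) = 0 := by
    ext x
    obtain ⟨a, ha⟩ := hu x
    obtain ⟨b, hb⟩ := hv x
    simp only [ContinuousMap.mul_apply, ContinuousMap.sub_apply, mod_apply, ha, hb,
      ContinuousMap.zero_apply, ← Complex.ofReal_sub, Complex.norm_real, Real.norm_eq_abs,
      ← Complex.ofReal_mul, Complex.ofReal_eq_zero]
    rcases _root_.le_total a b with h | h
    · rw [abs_of_nonneg (sub_nonneg.2 h)]; simp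
    · rw [abs_of_nonneg (sub_nonneg.2 h)]; simp
  exact hP.mem_or_mem (h0 ▸ P.zero_mem)

theorem le_antisymm (hP : P.IsPrime) {u v : C(Ω, ℂ)} (h1 : LeMod P u v) (h2 : LeMod P v u) :
    u - v ∈ P := by
  have h3 := P.sub_mem h2 h1
  have h4 : modulus (u - v) = modulus (v - u) := by rw [← mod_neg, neg_sub]
  rw [h4] at h3
  refine conv hP (fun x => ?_) h3
  have : (u - v - modulus (v - u) - (v - u - modulus (v - u))) x = 2 * (u - v) x := by
    simp only [ContinuousMap.sub_apply]; ring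
  rw [this, norm_mul]
  have h5 : ‖(2 : ℂ)‖ = 2 := by simp
  rw [h5]
  linarith [norm_nonneg ((u - v) x)]

theorem le_trans (hP : P.IsPrime) {u v w : C(Ω, ℂ)} (hu : ∀ x, ∃ r : ℝ, u x = r)
    (hv : ∀ x, ∃ r : ℝ, v x = r) (hw : ∀ x, ∃ r : ℝ, w x = r)
    (h1 : LeMod P u v) (h2 : LeMod P v w) : LeMod P u w := by
  refine conv hP (fun x => ?_) (P.add_mem h1 h2)
  obtain ⟨a, ha⟩ := hu x
  obtain ⟨b, hb⟩ := hv x
  obtain ⟨c, hc⟩ := hw x
  simp only [ContinuousMap.add_apply, ContinuousMap.sub_apply, mod_apply, ha, hb, hc,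
    ← Complex.ofReal_sub, ← Complex.ofReal_add, Complex.norm_real, Real.norm_eq_abs]
  have e1 := le_abs_self (c - a)
  have e2 := le_abs_self (b - a)
  have e3 := le_abs_self (c - b)
  have e4 : |c - a| ≤ |b - a| + |c - b| := by
    have := abs_add_le (b - a) (c - b)
    rwa [show b - a + (c - b) = c - a by ring] at this
  rw [abs_of_nonpos (by linarith : c - a - |c - a| ≤ 0),
    abs_of_nonpos (by linarith : b - a - |b - a| + (c - b - |c - b|) ≤ 0)]
  linarith

theorem le_smul (n : ℕ) {u v : C(Ω, ℂ)} (h : LeMod P u v) : LeMod P (n • u) (n • v) := by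
  have h1 : n • v - n • u - modulus (n • v - n • u) = n • (v - u - modulus (v - u)) := by
    ext x
    simp only [ContinuousMap.sub_apply, ContinuousMap.nsmul_apply, mod_apply]
    simp only [nsmul_eq_mul]
    rw [← mul_sub, norm_mul, Complex.norm_natCast, Complex.ofReal_mul, Complex.ofReal_natCast]
    ring
  unfold LeMod
  rw [h1]
  exact nsmul_mem h n

theorem real_mod (n : ℕ) (f : C(Ω, ℂ)) (x : Ω) : ∃ r : ℝ, (n • modulus f) x = r :=
  ⟨n * ‖f x‖, by simp [mod_apply]⟩

theorem arch_reps (hP : P.IsPrime) {a b : {a : C(Ω, ℂ) ⧸ P // a ≠ 0}} (h : Arch P a b)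
    (f g : C(Ω, ℂ)) (hf : Ideal.Quotient.mk P f = a.1) (hg : Ideal.Quotient.mk P g = b.1) :
    ∃ n : ℕ, LeMod P (modulus f) (n • modulus g) ∧ LeMod P (modulus g) (n • modulus f) := by
  obtain ⟨f', g', hf', hg', n, h1, h2⟩ := h
  have e1 : modulus f' - modulus f ∈ P := mod_sub hP (Ideal.Quotient.eq.1 (hf'.trans hf.symm))
  have e2 : modulus g' - modulus g ∈ P := mod_sub hP (Ideal.Quotient.eq.1 (hg'.trans hg.symm))
  exact ⟨n, le_congr hP e1 (smul_sub n (modulus g') (modulus g) ▸ nsmul_mem e2 n) h1,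
    le_congr hP e2 (smul_sub n (modulus f') (modulus f) ▸ nsmul_mem e1 n) h2⟩

theorem arch_iff (hP : P.IsPrime) (a b : {a : C(Ω, ℂ) ⧸ P // a ≠ 0}) :
    Arch P a b ↔ ∀ f g : C(Ω, ℂ), Ideal.Quotient.mk P f = a.1 → Ideal.Quotient.mk P g = b.1 →
      ∃ n : ℕ, LeMod P (modulus f) (n • modulus g) ∧ LeMod P (modulus g) (n • modulus f) := by
  refine ⟨fun h => arch_reps hP h, fun h => ?_⟩
  obtain ⟨f, hf⟩ := Ideal.Quotient.mk_surjective a.1
  obtain ⟨g, hg⟩ := Ideal.Quotient.mk_surjective b.1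
  exact ⟨f, g, hf, hg, h f g hf hg⟩

theorem step (hP : P.IsPrime) {f g h : C(Ω, ℂ)} {n m : ℕ}
    (h1 : LeMod P (modulus f) (n • modulus g)) (h2 : LeMod P (modulus g) (m • modulus h)) :
    LeMod P (modulus f) ((n * m) • modulus h) := by
  have h3 := le_smul n h2
  rw [smul_smul] at h3
  exact le_trans hP (fun x => ⟨_, rfl⟩) (real_mod n g) (real_mod _ h) h1 h3

theorem arch_equiv (hP : P.IsPrime) : Equivalence (Arch P) where
  refl a := by
    obtain ⟨f, hf⟩ := Ideal.Quotient.mk_surjective a.1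
    have : LeMod P (modulus f) (1 • modulus f) := by
      have h0 : modulus (0 : C(Ω, ℂ)) = 0 := by ext x; simp [mod_apply]
      unfold LeMod
      rw [one_smul, sub_self, h0, sub_self]
      exact P.zero_mem
    exact ⟨f, f, hf, hf, 1, this, this⟩
  symm := fun ⟨f, g, hf, hg, n, h1, h2⟩ => ⟨g, f, hg, hf, n, h2, h1⟩
  trans := by
    rintro a b c ⟨f, g, hf, hg, n, h1, h2⟩ hbc
    obtain ⟨h, hh⟩ := Ideal.Quotient.mk_surjective c.1
    obtain ⟨m, h3, h4⟩ := arch_reps hP hbc g h hg hh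
    exact ⟨f, h, hf, hh, n * m, step hP h1 h3, mul_comm m n ▸ step hP h4 h2⟩

theorem quot_iff (hP : P.IsPrime) (a b : {a : C(Ω, ℂ) ⧸ P // a ≠ 0}) :
    Quot.mk (Arch P) a = Quot.mk (Arch P) b ↔ Arch P a b :=
  (arch_equiv hP).quot_mk_eq_iff a b

end Pool.Agent.P.MP_fe901c_an.AE
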