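import Mathlib

set_option autoImplicit false

namespace Pool.Agent.P.MP_fe901c_an.Card

open Cardinal Filter Topology

/-- the first uncountable ordinal as a well-ordered type -/
abbrev W : Type := (aleph 1).ord.ToType

theorem countable_Iio (i : W) : (Set.Iio i).Countable :=
  (Cardinal.countable_iff_lt_aleph_one _).2 (mk_Iio_toType_ord_lt i)

theorem countable_Iic (i : W) : (Set.Iic i).Countable := by
  rw [← Set.Iio_insert]
  exact (countable_Iio i).insert i

theorem not_countable_W : ¬ (Set.univ : Set W).Countable := by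
  rw [Cardinal.countable_iff_lt_aleph_one, mk_univ, mk_ord_toType]
  exact lt_irrefl _

theorem exists_gt_W (i : W) : ∃ j, i < j := by
  by_contra h
  push Not at h
  exact not_countable_W ((countable_Iic i).mono fun j _ => h j)

theorem exists_endHom {X C : Type} (hC : #C ≤ 𝔠) (hX : 𝔠 < #X) (f : X → X → X → X → C) :
    ∃ y : W → X, (∀ a d, a < d → y d ≠ y a) ∧ ∀ a b c d e, a < d → b < d → c < d →
      a < e → b < e → c < e → f (y a) (y b) (y c) (y d) = f (y a) (y b) (y c) (y e) := by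
  classical
  have : Nonempty X := mk_ne_zero_iff.1 (zero_le.trans_lt hX).ne'
  let F : X → X → X → X → C × Prop := fun a b c z => (f a b c z, z = a)
  let Y : X → W → X := fun x => WellFoundedLT.fix (motive := fun _ => X)
    fun d (r : ∀ b, b < d → X) => Classical.epsilon fun z =>
      ∀ a (ha : a < d) b (hb : b < d) c (hc : c < d),
        F (r a ha) (r b hb) (r c hc) z = F (r a ha) (r b hb) (r c hc) x
  have hY : ∀ x d, Y x d = Classical.epsilon fun z => ∀ a < d, ∀ b < d, ∀ c < d,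
      F (Y x a) (Y x b) (Y x c) z = F (Y x a) (Y x b) (Y x c) x :=
    fun x d => WellFoundedLT.fix_eq _ d
  have hspec : ∀ x d, ∀ a < d, ∀ b < d, ∀ c < d,
      F (Y x a) (Y x b) (Y x c) (Y x d) = F (Y x a) (Y x b) (Y x c) x := by
    intro x d
    rw [hY x d]
    exact Classical.epsilon_spec (p := fun z => ∀ a < d, ∀ b < d, ∀ c < d,
      F (Y x a) (Y x b) (Y x c) z = F (Y x a) (Y x b) (Y x c) x) ⟨x, fun _ _ _ _ _ _ => rfl⟩
  have hfac : ∀ d x x', (∀ a < d, ∀ b < d, ∀ c < d,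
      F (Y x a) (Y x b) (Y x c) x = F (Y x' a) (Y x' b) (Y x' c) x') → Y x d = Y x' d := by
    intro d
    induction d using WellFoundedLT.induction with
    | ind d ih =>
      intro x x' h
      have h1 : ∀ a < d, Y x a = Y x' a := fun a ha => ih a ha x x' fun a' ha' b hb c hc =>
        h a' (ha'.trans ha) b (hb.trans ha) c (hc.trans ha)
      rw [hY x d, hY x' d]
      congr 1
      funext z
      refine propext (forall₂_congr fun a ha => forall₂_congr fun b hb =>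
        forall₂_congr fun c hc => ?_)
      rw [h a ha b hb c hc, h1 a ha, h1 b hb, h1 c hc]
  let Φ : ∀ d : W, X → (Set.Iio d × Set.Iio d × Set.Iio d → C × Prop) := fun d x p =>
    F (Y x p.1) (Y x p.2.1) (Y x p.2.2) x
  let G : (Σ d : W, (Set.Iio d × Set.Iio d × Set.Iio d → C × Prop)) → X := fun p =>
    Y (Function.invFun (Φ p.1) p.2) p.1
  have hG : ∀ x d, Y x d ∈ Set.range G := fun x d => ⟨⟨d, Φ d x⟩, hfac d _ _ fun a ha b hb c hc =>
    congrFun (Function.invFun_eq (f := Φ d) ⟨x, rfl⟩) (⟨a, ha⟩, ⟨b, hb⟩, ⟨c, hc⟩)⟩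
  have hcard : #(Set.range G) ≤ 𝔠 := by
    refine mk_range_le.trans ?_
    rw [mk_sigma]
    have h1 : ∀ d : W, #(Set.Iio d × Set.Iio d × Set.Iio d → C × Prop) ≤ 𝔠 := by
      intro d
      have := (countable_Iio d).to_subtype
      have h2 : #(C × Prop) ≤ 𝔠 := by
        rw [mk_prod, lift_id, lift_id]
        exact mul_le_of_le aleph0_le_continuum hC (mk_le_aleph0.trans aleph0_le_continuum)
      rw [← power_def]
      calc _ ≤ 𝔠 ^ #(Set.Iio d × Set.Iio d × Set.Iio d) := power_le_power_right h2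
        _ ≤ 𝔠 ^ ℵ₀ := power_le_power_left continuum_ne_zero mk_le_aleph0
        _ = 𝔠 := continuum_power_aleph0
    refine (sum_le_sum _ (fun _ => 𝔠) h1).trans ?_
    rw [sum_const', mk_ord_toType]
    exact mul_le_of_le aleph0_le_continuum aleph_one_le_continuum le_rfl
  obtain ⟨x, hx⟩ : ∃ x, x ∉ Set.range G := by
    by_contra h
    push Not at h
    rw [Set.eq_univ_of_forall h, mk_univ] at hcard
    exact absurd hX (not_lt.2 hcard)
  refine ⟨Y x, fun a d had h => ?_, fun a b c d e h1 h2 h3 h4 h5 h6 => ?_⟩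
  · have h1 : (Y x d = Y x a) = (x = Y x a) := congrArg Prod.snd (hspec x d a had a had a had)
    exact hx ((h1 ▸ h : x = Y x a) ▸ hG x a)
  · exact (congrArg Prod.fst (hspec x d a h1 b h2 c h3)).trans
      (congrArg Prod.fst (hspec x e a h4 b h5 c h6)).symm

theorem exists_condensation (φ : ℕ → W → ℚ) : ∃ a, ∀ k e, ∃ b, e < b ∧ φ k b = φ k a := by
  by_contra h
  push Not at h
  refine not_countable_W (Set.Countable.mono (s₂ := ⋃ p : ℕ × ℚ,
    {a | φ p.1 a = p.2 ∧ ∃ e, ∀ b, e < b → φ p.1 b ≠ p.2}) (fun a _ => ?_)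
    (Set.countable_iUnion fun p => ?_))
  · obtain ⟨k, e, he⟩ := h a
    exact Set.mem_iUnion.2 ⟨(k, φ k a), rfl, e, he⟩
  · by_cases hp : ∃ e, ∀ b, e < b → φ p.1 b ≠ p.2
    · obtain ⟨e, he⟩ := hp
      exact (countable_Iic e).mono fun a ha => not_lt.1 fun hlt => he a hlt ha.1
    · exact Set.countable_empty.mono fun a ha => hp ha.2

variable {A : Type} [CommRing A] [Algebra ℂ A] [IsDomain A]

theorem norm_pos' (N : AlgebraNorm ℂ A) {a : A} (ha : a ≠ 0) : 0 < N a :=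
  (apply_nonneg N a).lt_of_ne fun h => ha (eq_zero_of_map_eq_zero N h.symm)

theorem not_dvd_of_pow_eq (N : AlgebraNorm ℂ A) (M : Ideal A)
    (hq : ∀ u ∈ M, ∀ ε : ℝ, 0 < ε → ∀ᶠ k : ℕ in atTop, N (u ^ k) ≤ ε ^ k) {s w : A} (hs : s ≠ 0)
    (h : (fun k : ℕ => N (w ^ k)) = fun k : ℕ => N (s ^ k)) : ¬ ∃ m ∈ M, s = w * m := by
  rintro ⟨m, hm, hsm⟩
  obtain ⟨k, hk, hk1⟩ := ((hq m hm 2⁻¹ (by norm_num)).and (eventually_ge_atTop 1)).exists
  have h1 : N (s ^ k) ≤ N (w ^ k) * N (m ^ k) := by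
    rw [hsm, mul_pow]
    exact map_mul_le_mul N _ _
  have h2 : N (w ^ k) = N (s ^ k) := congrFun h k
  have h3 := norm_pos' N (pow_ne_zero k hs)
  have h4 : (2⁻¹ : ℝ) ^ k < 1 := pow_lt_one₀ (by norm_num) (by norm_num) (by omega)
  rw [h2] at h1
  nlinarith

theorem card_le_abstract (N : AlgebraNorm ℂ A) (M : Ideal A)
    (hq : ∀ u ∈ M, ∀ ε : ℝ, 0 < ε → ∀ᶠ k : ℕ in atTop, N (u ^ k) ≤ ε ^ k)
    {C : Type} (hC : #C ≤ 𝔠) (I : A → A → C)
    (hI : ∀ s ∈ M, s ≠ 0 → ∀ w w', (¬ ∃ m ∈ M, s = w * m) → (¬ ∃ m ∈ M, s = w' * m) →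
      I s w = I s w' → ∃ m ∈ M, w - w' = s * m) : #M ≤ 𝔠 := by
  classical
  by_contra hM
  let quo : A → A → A := fun x s => if h : ∃ q, x = s * q then h.choose else 0
  have hquo : ∀ x s, (∃ q, x = s * q) → x = s * quo x s := fun x s h => by
    simp only [quo, dif_pos h]
    exact h.choose_spec
  have hC' : #((ℕ → ℝ) × C × ℝ) ≤ 𝔠 := by
    simp only [mk_prod, lift_id]
    refine mul_le_of_le aleph0_le_continuum ?_
      (mul_le_of_le aleph0_le_continuum hC mk_real.le)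
    rw [← power_def, mk_real, mk_nat, continuum_power_aleph0]
  obtain ⟨y, hy, hh⟩ := exists_endHom hC' (not_le.1 hM) fun a b c z : M =>
    ((fun k : ℕ => N (((z : A) - a) ^ k)), I (b - a) (z - a), N (quo (z - c) (b - a)))
  choose nx hnx using exists_gt_W
  let s : W → A := fun a => y (nx a) - y a
  have hs0 : ∀ a, s a ≠ 0 := fun a h =>
    hy a (nx a) (hnx a) (Subtype.ext (sub_eq_zero.1 h))
  have hsM : ∀ a, s a ∈ M := fun a => M.sub_mem (y _).2 (y _).2
  have h1 : ∀ a d, a < d → ¬ ∃ m ∈ M, s a = ((y d : A) - y a) * m := fun a d had =>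
    not_dvd_of_pow_eq N M hq (hs0 a)
      (congrArg Prod.fst (hh a a a d (nx a) had had had (hnx a) (hnx a) (hnx a)))
  have h2 : ∀ a d e, nx a < d → nx a < e → ∃ m ∈ M, (y d : A) - y e = s a * m := by
    intro a d e hd he
    have hd' := (hnx a).trans hd
    have he' := (hnx a).trans he
    obtain ⟨m, hm, h⟩ := hI (s a) (hsM a) (hs0 a) _ _ (h1 a d hd') (h1 a e he')
      (congrArg (fun p => p.2.1) (hh a (nx a) a d e hd' hd hd' he' he he'))
    exact ⟨m, hm, by rw [← h]; ring⟩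
  have h3 : ∀ a, ∃ n : ℝ, 0 ≤ n ∧ ∀ d, nx (nx a) < d → ∃ u ∈ M, s d = s a * u ∧ N u ≤ n := by
    intro a
    let q : W → A := fun d => quo ((y d : A) - y (nx (nx a))) (s a)
    have hq1 : ∀ d, nx (nx a) < d → (y d : A) - y (nx (nx a)) = s a * q d := fun d hd => by
      obtain ⟨m, -, h⟩ := h2 a d (nx (nx a)) ((hnx _).trans hd) (hnx _)
      exact hquo _ _ ⟨m, h⟩
    have hq2 : ∀ d, nx (nx a) < d → N (q d) = N (q (nx (nx (nx a)))) := fun d hd =>
      congrArg (fun p => p.2.2) (hh a (nx a) (nx (nx a)) d (nx (nx (nx a)))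
        (((hnx _).trans (hnx _)).trans hd) ((hnx _).trans hd) hd
        (((hnx _).trans (hnx _)).trans (hnx _)) ((hnx _).trans (hnx _)) (hnx _))
    refine ⟨2 * N (q (nx (nx (nx a)))), mul_nonneg zero_le_two (apply_nonneg N _), fun d hd => ?_⟩
    have hd' := hd.trans (hnx d)
    obtain ⟨m, hm, h⟩ := h2 a (nx d) d ((hnx _).trans hd') ((hnx _).trans hd)
    have h4 : m = q (nx d) - q d := by
      refine mul_left_cancel₀ (hs0 a) ?_
      rw [← h, mul_sub, ← hq1 _ hd, ← hq1 _ hd']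
      ring
    refine ⟨m, hm, h, ?_⟩
    have h5 := map_sub_le_add N (q (nx d)) (q d)
    rw [hq2 _ hd, hq2 _ hd', ← h4] at h5
    linarith
  have hφ : ∀ (k : ℕ) a, ∃ r : ℚ, N (s a ^ k) / 2 < r ∧ r < N (s a ^ k) := fun k a =>
    exists_rat_btwn (half_lt_self (norm_pos' N (pow_ne_zero k (hs0 a))))
  choose φ hφ1 hφ2 using hφ
  obtain ⟨a, ha⟩ := exists_condensation φ
  obtain ⟨n0, -, h4⟩ := h3 a
  obtain ⟨u, hu, hsu, -⟩ := h4 _ (hnx (nx (nx a)))
  obtain ⟨n, hn, h5⟩ := h3 (nx (nx (nx a)))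
  obtain ⟨k, hk, hk1⟩ := ((hq u hu (2 * (n + 1))⁻¹ (by positivity)).and
    (eventually_ge_atTop 1)).exists
  obtain ⟨b, hb, hφb⟩ := ha k (nx (nx (nx (nx (nx a)))))
  obtain ⟨v, -, hsv, hv⟩ := h5 b hb
  have h6 : N (s b ^ k) ≤ N (s a ^ k) * (N (u ^ k) * N (v ^ k)) := by
    rw [hsv, hsu, mul_pow, mul_pow, mul_assoc]
    exact (map_mul_le_mul N _ _).trans
      (mul_le_mul_of_nonneg_left (map_mul_le_mul N _ _) (apply_nonneg N _))
  have h7 : N (v ^ k) ≤ n ^ k :=
    (map_pow_le_pow N v (by omega)).trans (pow_le_pow_left₀ (apply_nonneg N _) hv k)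
  have h8 : N (u ^ k) * N (v ^ k) ≤ 2⁻¹ := by
    calc N (u ^ k) * N (v ^ k) ≤ (2 * (n + 1))⁻¹ ^ k * n ^ k :=
          mul_le_mul hk h7 (apply_nonneg N _) (by positivity)
      _ = ((2 * (n + 1))⁻¹ * n) ^ k := (mul_pow _ _ _).symm
      _ ≤ (2⁻¹ : ℝ) ^ k := by
          refine pow_le_pow_left₀ (by positivity) ?_ k
          rw [inv_mul_le_iff₀ (by positivity)]
          linarith
      _ ≤ (2⁻¹ : ℝ) ^ 1 := pow_le_pow_of_le_one (by norm_num) (by norm_num) hk1
      _ = 2⁻¹ := pow_one _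
  have h9 := hφ1 k a
  have h10 := hφ2 k b
  rw [hφb] at h10
  have h11 := norm_pos' N (pow_ne_zero k (hs0 a))
  nlinarith

end Pool.Agent.P.MP_fe901c_an.Card
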