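import Mathlib

set_option autoImplicit false

namespace Pool.Agent.P.MP_fe901c_an.Card

open Filter Topology ComplexConjugate

theorem exists_scale : ∃ L : ℝ → ℝ, (∀ t ∈ Set.Icc (0 : ℝ) 2⁻¹, ContinuousAt L t) ∧ L 0 = 0 ∧
    (∀ t, 0 ≤ L t) ∧ ∀ t ∈ Set.Ioc (0 : ℝ) 2⁻¹, t ≤ L t ^ 2 ∧ t ^ (L t ^ 2) ≤ L t ^ 2 := by
  refine ⟨fun t => √(√((-Real.log t)⁻¹)), fun t ht => ?_, by simp, fun t => Real.sqrt_nonneg _,
    fun t ht => ?_⟩
  · refine Real.continuous_sqrt.continuousAt.comp (Real.continuous_sqrt.continuousAt.comp ?_)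
    rcases ht.1.eq_or_lt with h | h
    · subst h
      rw [continuousAt_iff_punctured_nhds]
      rw [Real.log_zero, neg_zero, inv_zero]
      exact tendsto_inv_atTop_zero.comp
        (tendsto_neg_atBot_atTop.comp Real.tendsto_log_nhdsNE_zero)
    · have h1 : Real.log t < 0 := Real.log_neg h (by linarith [ht.2])
      exact (Real.continuousAt_log h.ne').neg.inv₀ (neg_pos.2 h1).ne'
  · have h1 : 0 < -Real.log t := neg_pos.2 (Real.log_neg ht.1 (by linarith [ht.2]))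
    rw [Real.sq_sqrt (Real.sqrt_nonneg _)]
    set l := √((-Real.log t)⁻¹) with hl
    have hl0 : 0 < l := Real.sqrt_pos.2 (inv_pos.2 h1)
    have hl2 : l ^ 2 = (-Real.log t)⁻¹ := Real.sq_sqrt (inv_pos.2 h1).le
    constructor
    · have h2 : -Real.log t ≤ t⁻¹ := by
        have := Real.log_le_sub_one_of_pos (inv_pos.2 ht.1)
        rw [Real.log_inv] at this
        linarith
      have h3 : t ≤ l ^ 2 := by
        rw [hl2]
        exact le_inv_of_le_inv₀ h1 h2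
      refine le_of_sq_le_sq ?_ hl0.le
      nlinarith [ht.1, ht.2]
    · rw [Real.rpow_def_of_pos ht.1]
      have h3 : Real.log t * l = -l⁻¹ := by
        have h4 : l ^ 2 * (-Real.log t) = 1 := by rw [hl2]; exact inv_mul_cancel₀ h1.ne'
        field_simp
        linarith
      rw [h3, Real.exp_neg]
      refine inv_le_of_inv_le₀ hl0 ?_
      linarith [Real.add_one_le_exp l⁻¹]

variable {Ω : Type} [TopologicalSpace Ω]

theorem continuous_of_squeeze (φ : Ω → ℂ) (ψ : Ω → ℝ) (hψ : Continuous ψ)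
    (h : ∀ x, ‖φ x‖ ≤ ψ x) (hc : ∀ x, ψ x ≠ 0 → ContinuousAt φ x) : Continuous φ := by
  refine continuous_iff_continuousAt.2 fun x => ?_
  by_cases hx : ψ x = 0
  · have h1 : φ x = 0 := norm_le_zero_iff.1 (hx ▸ h x)
    rw [ContinuousAt, h1]
    exact squeeze_zero_norm h (hx ▸ hψ.continuousAt)
  · exact hc x hx

theorem exists_div (a b : C(Ω, ℂ)) (ψ : Ω → ℝ) (hψ : Continuous ψ) (hψ0 : ∀ x, 0 ≤ ψ x)
    (h0 : ∀ x, a x = 0 → b x = 0 → ψ x = 0) :
    ∃ q : C(Ω, ℂ), (∀ x, ‖q x‖ ≤ ψ x) ∧ ∀ x, ‖a x‖ ≤ ψ x * ‖b x‖ → a x = b x * q x := by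
  let D : Ω → ℝ := fun x => max (ψ x * ‖b x‖) ‖a x‖
  have hD : Continuous D := (hψ.mul b.continuous.norm).max a.continuous.norm
  have hD0 : ∀ x, 0 ≤ D x := fun x => (norm_nonneg _).trans (le_max_right _ _)
  let q : Ω → ℂ := fun x => a x * conj (b x) * ((ψ x ^ 2 / D x ^ 2 : ℝ) : ℂ)
  have hq : ∀ x, ‖q x‖ ≤ ψ x := by
    intro x
    simp only [q, norm_mul, Complex.norm_conj, Complex.norm_real, Real.norm_eq_abs]
    rw [abs_of_nonneg (by positivity)]
    rcases (hD0 x).eq_or_lt with h | h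
    · rw [← h]
      simpa using hψ0 x
    · rw [← mul_div_assoc, div_le_iff₀ (by positivity)]
      have h1 : ‖a x‖ * (ψ x * ‖b x‖) ≤ D x * D x :=
        mul_le_mul (le_max_right _ _) (le_max_left _ _) (mul_nonneg (hψ0 x) (norm_nonneg _))
          (hD0 x)
      nlinarith [hψ0 x]
  refine ⟨⟨q, continuous_of_squeeze q ψ hψ hq fun x hx => ?_⟩, hq, fun x hx => ?_⟩
  · have h1 : D x ≠ 0 := fun h => by
      have h2 : ‖a x‖ ≤ 0 := h ▸ le_max_right _ _
      have h3 : ψ x * ‖b x‖ ≤ 0 := h ▸ le_max_left _ _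
      have h4 : ‖b x‖ ≤ 0 := by
        by_contra h5
        exact absurd h3 (not_le.2 (mul_pos ((hψ0 x).lt_of_ne (Ne.symm hx)) (not_le.1 h5)))
      exact hx (h0 x (norm_le_zero_iff.1 h2) (norm_le_zero_iff.1 h4))
    exact (a.continuous.continuousAt.mul
      (Complex.continuous_conj.comp b.continuous).continuousAt).mul
      (Complex.continuous_ofReal.continuousAt.comp
        ((hψ.pow 2).continuousAt.div (hD.pow 2).continuousAt (pow_ne_zero 2 h1)))
  · have h1 : D x = ψ x * ‖b x‖ := max_eq_left hx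
    show a x = b x * (a x * conj (b x) * ((ψ x ^ 2 / D x ^ 2 : ℝ) : ℂ))
    by_cases h2 : ψ x * ‖b x‖ = 0
    · have : a x = 0 := norm_le_zero_iff.1 (h2 ▸ hx)
      simp [this]
    · have h3 : (ψ x : ℂ) ≠ 0 := by exact_mod_cast left_ne_zero_of_mul h2
      have h4 : (‖b x‖ : ℂ) ≠ 0 := by exact_mod_cast right_ne_zero_of_mul h2
      have h5 : b x * conj (b x) = (‖b x‖ : ℂ) ^ 2 := Complex.mul_conj' _
      rw [h1]
      push_cast
      field_simp
      linear_combination (-(a x)) * h5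

/-- sets that contain the cozero set of a function outside the ideal -/
def Big (P : Ideal C(Ω, ℂ)) (S : Set Ω) : Prop := ∃ h : C(Ω, ℂ), h ∉ P ∧ ∀ x, h x ≠ 0 → x ∈ S

variable {P : Ideal C(Ω, ℂ)}

theorem Big.mono {S T : Set Ω} (h : Big P S) (hST : S ⊆ T) : Big P T :=
  let ⟨f, h1, h2⟩ := h
  ⟨f, h1, fun x hx => hST (h2 x hx)⟩

theorem Big.inter (hP : P.IsPrime) {S T : Set Ω} (h : Big P S) (h' : Big P T) : Big P (S ∩ T) :=
  let ⟨f, h1, h2⟩ := h
  let ⟨g, h3, h4⟩ := h'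
  ⟨f * g, fun h => (hP.mem_or_mem h).elim h1 h3, fun x hx =>
    ⟨h2 x (left_ne_zero_of_mul hx), h4 x (right_ne_zero_of_mul hx)⟩⟩

theorem Big.mem (hP : P.IsPrime) {S : Set Ω} (h : Big P S) {f : C(Ω, ℂ)} (hf : ∀ x ∈ S, f x = 0) :
    f ∈ P := by
  obtain ⟨g, h1, h2⟩ := h
  have h3 : g * f = 0 := by
    ext x
    by_cases hx : g x = 0
    · simp [hx]
    · simp [hf x (h2 x hx)]
  exact (hP.mem_or_mem (h3 ▸ P.zero_mem)).resolve_left h1

theorem mem_of_norm_le (hP : P.IsPrime) {a b : C(Ω, ℂ)} (hb : b ∈ P) (h : ∀ x, ‖a x‖ ≤ ‖b x‖) :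
    a ∈ P := by
  obtain ⟨q, -, hq⟩ := exists_div (a * a) b (fun x => ‖a x‖) a.continuous.norm
    (fun x => norm_nonneg _) fun x hx _ => by simpa using hx
  have h1 : a * a = b * q := by
    ext x
    refine hq x ?_
    rw [ContinuousMap.mul_apply, norm_mul]
    exact mul_le_mul_of_nonneg_left (h x) (norm_nonneg _)
  exact (hP.mem_or_mem (h1 ▸ P.mul_mem_right q hb)).elim id id

/-- the positive part of a real function, as a complex-valued function -/
noncomputable def posPart' (u : Ω → ℝ) (hu : Continuous u) : C(Ω, ℂ) :=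
  ⟨fun x => ((max (u x) 0 : ℝ) : ℂ), Complex.continuous_ofReal.comp (hu.max continuous_const)⟩

theorem big_of_posPart {u : Ω → ℝ} (hu : Continuous u) (h : posPart' u hu ∉ P) :
    Big P {x | 0 < u x} :=
  ⟨_, h, fun x hx => by
    by_contra h1
    have h2 : u x ≤ 0 := not_lt.1 h1
    exact hx (by simp [posPart', max_eq_right h2])⟩

theorem big_or_big (hP : P.IsPrime) {u v : Ω → ℝ} (hu : Continuous u) (hv : Continuous v)
    {g : C(Ω, ℂ)} (hg : g ∉ P) (h : ∀ x, ‖g x‖ ≤ u x + v x) :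
    Big P {x | 0 < u x} ∨ Big P {x | 0 < v x} := by
  by_contra h1
  rw [not_or] at h1
  have h2 : posPart' u hu ∈ P := by_contra fun h => h1.1 (big_of_posPart hu h)
  have h3 : posPart' v hv ∈ P := by_contra fun h => h1.2 (big_of_posPart hv h)
  refine hg (mem_of_norm_le hP (P.add_mem h2 h3) fun x => (h x).trans ?_)
  show _ ≤ ‖((max (u x) 0 : ℝ) : ℂ) + ((max (v x) 0 : ℝ) : ℂ)‖
  rw [← Complex.ofReal_add, Complex.norm_real]
  exact (add_le_add (le_max_left _ _) (le_max_left _ _)).trans (le_abs_self _)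

theorem exists_dvd (hP : P.IsPrime) (a b : C(Ω, ℂ)) (ψ : Ω → ℝ) (hψ : Continuous ψ)
    (hψ0 : ∀ x, 0 ≤ ψ x) (h0 : ∀ x, a x = 0 → b x = 0 → ψ x = 0)
    (h : Big P {x | ‖a x‖ ≤ ψ x * ‖b x‖}) :
    ∃ q : C(Ω, ℂ), (∀ x, ‖q x‖ ≤ ψ x) ∧ a - b * q ∈ P := by
  obtain ⟨q, h1, h2⟩ := exists_div a b ψ hψ hψ0 h0
  exact ⟨q, h1, h.mem hP fun x hx => by simp [← h2 x hx]⟩

theorem exists_power (g f : C(Ω, ℂ)) (hg : ∀ x, ‖g x‖ ≤ 2⁻¹) (l : Ω → ℝ) (hl : Continuous l)
    (hl0 : ∀ x, 0 ≤ l x) :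
    ∃ E : C(Ω, ℂ), (∀ x, ‖E x‖ ≤ ‖g x‖) ∧ (∀ x, ‖(g ^ 5) x‖ ≤ ‖E x‖) ∧
      ∀ x, l x * ‖f x‖ < 2 * ‖g x‖ →
        ‖E x‖ = ‖g x‖ ^ (3 + l x * (f x * conj (g x)).re / ‖g x‖ ^ 2) := by
  let θ : Ω → ℝ := fun x => max (-2) (min 2 (l x * (f x * conj (g x)).re / ‖g x‖ ^ 2))
  have h1 : ∀ x, -2 ≤ θ x := fun x => le_max_left _ _
  have h2 : ∀ x, θ x ≤ 2 := fun x => max_le (by norm_num) (min_le_left _ _)
  let E : Ω → ℂ := fun x => ((‖g x‖ ^ (3 + θ x) : ℝ) : ℂ)
  have hE : ∀ x, ‖E x‖ = ‖g x‖ ^ (3 + θ x) := fun x => by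
    simp only [E, Complex.norm_real, Real.norm_eq_abs]
    exact abs_of_nonneg (by positivity)
  have hle : ∀ x, ‖E x‖ ≤ ‖g x‖ := fun x => by
    rw [hE]
    refine (Real.rpow_le_rpow_of_exponent_ge' (norm_nonneg _) (by linarith [hg x]) zero_le_one
      (by linarith [h1 x])).trans (Real.rpow_one _).le
  refine ⟨⟨E, continuous_of_squeeze E _ g.continuous.norm hle fun x hx => ?_⟩, hle, fun x => ?_,
    fun x hx => ?_⟩
  · refine Complex.continuous_ofReal.continuousAt.comp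
      (g.continuous.norm.continuousAt.rpow (continuousAt_const.add
        (continuousAt_const.max (continuousAt_const.min ?_))) (Or.inl hx))
    exact (hl.mul (Complex.continuous_re.comp (f.continuous.mul
      (Complex.continuous_conj.comp g.continuous)))).continuousAt.div
      (g.continuous.norm.pow 2).continuousAt (pow_ne_zero 2 hx)
  · show _ ≤ ‖E x‖
    rw [hE, ContinuousMap.pow_apply, norm_pow, ← Real.rpow_natCast]
    exact Real.rpow_le_rpow_of_exponent_ge' (norm_nonneg _) (by linarith [hg x])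
      (by linarith [h1 x]) (by push_cast; linarith [h2 x])
  · show ‖E x‖ = _
    have h3 : 0 < ‖g x‖ := by nlinarith [mul_nonneg (hl0 x) (norm_nonneg (f x))]
    have h4 : |(f x * conj (g x)).re| ≤ ‖f x‖ * ‖g x‖ := by
      simpa using Complex.abs_re_le_norm (f x * conj (g x))
    have h5 : |l x * (f x * conj (g x)).re / ‖g x‖ ^ 2| ≤ 2 := by
      rw [abs_div, abs_mul, abs_of_nonneg (hl0 x), abs_of_pos (pow_pos h3 2),
        div_le_iff₀ (pow_pos h3 2)]
      nlinarith [mul_le_mul_of_nonneg_left h4 (hl0 x)]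
    rw [hE]
    simp only [θ]
    rw [min_eq_right (abs_le.1 h5).2, max_eq_right (abs_le.1 h5).1]

end Pool.Agent.P.MP_fe901c_an.Card
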