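import Pool.Agent.P.MP_fe901c_an.CardA
import Pool.Agent.P.MP_fe901c_an.CardB

set_option autoImplicit false

namespace Pool.Agent.P.MP_fe901c_an.Card

open Filter Topology ComplexConjugate Cardinal

theorem small_pow_banach {B : Type} [NormedRing B] [NormedAlgebra ℂ B] [CompleteSpace B] (a : B)
    (ha : ∀ l : ℂ, IsUnit (1 - l • a)) {ε : ℝ} (hε : 0 < ε) :
    ∀ᶠ n : ℕ in atTop, ‖a ^ n‖ ≤ ε ^ n := by
  have h0 : spectralRadius ℂ a = 0 := by
    refine le_antisymm (iSup₂_le fun k hk => ?_) zero_le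
    by_cases h : k = 0
    · simp [h]
    · exfalso
      apply hk
      have h1 : algebraMap ℂ B k - a = algebraMap ℂ B k * (1 - k⁻¹ • a) := by
        rw [mul_sub, mul_one, ← Algebra.smul_def, smul_smul, mul_inv_cancel₀ h, one_smul]
      rw [resolventSet, Set.mem_ofPred_eq, h1]
      exact ((IsUnit.mk0 k h).map _).mul (ha _)
  have h1 := spectrum.pow_norm_pow_one_div_tendsto_nhds_spectralRadius a
  rw [h0] at h1
  have h2 := h1.eventually (gt_mem_nhds (ENNReal.ofReal_pos.2 hε))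
  filter_upwards [h2, eventually_gt_atTop 0] with n h3 hn
  rw [ENNReal.ofReal_lt_ofReal_iff hε] at h3
  have h4 : (‖a ^ n‖ ^ (1 / n : ℝ)) ^ n ≤ ε ^ n :=
    pow_le_pow_left₀ (by positivity) h3.le n
  rwa [← Real.rpow_natCast, ← Real.rpow_mul (norm_nonneg _), one_div_mul_cancel (by positivity),
    Real.rpow_one] at h4

theorem small_pow {A : Type} [CommRing A] [Algebra ℂ A] (N : AlgebraNorm ℂ A) (a : A)
    (ha : ∀ l : ℂ, IsUnit (1 - l • a)) {ε : ℝ} (hε : 0 < ε) :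
    ∀ᶠ n : ℕ in atTop, N (a ^ n) ≤ ε ^ n := by
  let _ : NormedRing A := N.toRingNorm.toNormedRing
  let _ : NormedCommRing A := { (inferInstance : NormedRing A) with mul_comm := mul_comm }
  let _ : NormedAlgebra ℂ A := { norm_smul_le := fun r x => (N.smul' r x).le }
  let φ : A →+* UniformSpace.Completion A := UniformSpace.Completion.coeRingHom
  have h := small_pow_banach (φ a) (fun l => by
    have := (ha l).map φ
    have h1 : φ (l • a) = l • φ a := UniformSpace.Completion.coe_smul l a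
    rwa [map_sub, map_one, h1] at this) hε
  filter_upwards [h] with n hn
  rw [← map_pow] at hn
  exact (UniformSpace.Completion.norm_coe (a ^ n)).symm.trans_le hn

variable {Ω : Type} [TopologicalSpace Ω] {P : Ideal C(Ω, ℂ)}

theorem isUnit_mk (hP : P.IsPrime) {p : Ω} (hp : ∀ f ∈ P, f p = 0) {f : C(Ω, ℂ)} (hf : f p ≠ 0) :
    IsUnit (Ideal.Quotient.mk P f) := by
  have hc : 0 < ‖f p‖ / 2 := half_pos (norm_pos_iff.2 hf)
  have hu : Continuous fun x => ‖f x‖ - ‖f p‖ / 2 := f.continuous.norm.sub continuous_const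
  have h1 : posPart' _ hu ∉ P := fun h => by
    have h2 : ((max (‖f p‖ - ‖f p‖ / 2) 0 : ℝ) : ℂ) = 0 := hp _ h
    have h3 : max (‖f p‖ - ‖f p‖ / 2) 0 = 0 := by exact_mod_cast h2
    have := le_max_left (‖f p‖ - ‖f p‖ / 2) 0
    linarith
  have hc' : ((‖f p‖ / 2 : ℝ) : ℂ) ≠ 0 := by exact_mod_cast hc.ne'
  obtain ⟨q, -, hq⟩ := exists_dvd hP (algebraMap ℂ C(Ω, ℂ) ((‖f p‖ / 2 : ℝ) : ℂ)) f (fun _ => 1)
    continuous_const (fun _ => zero_le_one) (fun x hx _ => absurd (by simpa using hx) hf)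
    ((big_of_posPart hu h1).mono fun x hx => by
      have h2 : 0 < ‖f x‖ - ‖f p‖ / 2 := hx
      show ‖(algebraMap ℂ C(Ω, ℂ) ((‖f p‖ / 2 : ℝ) : ℂ)) x‖ ≤ 1 * ‖f x‖
      rw [algebraMap_apply, smul_eq_mul, mul_one, Complex.norm_real, Real.norm_of_nonneg hc.le]
      linarith)
  have h2 := ((IsUnit.mk0 _ hc').map (algebraMap ℂ C(Ω, ℂ))).map (Ideal.Quotient.mk P)
  rw [Ideal.Quotient.eq.2 hq, map_mul] at h2
  obtain ⟨v, hv⟩ := h2.exists_right_inv
  have h3 : Ideal.Quotient.mk P f * (Ideal.Quotient.mk P q * v) = 1 := by rw [← mul_assoc, hv]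
  obtain ⟨v, rfl⟩ := Ideal.Quotient.mk_surjective v
  refine isUnit_iff_exists.2 ⟨_, h3, ?_⟩
  rw [← map_mul, ← map_mul] at h3 ⊢
  rwa [mul_comm]

theorem big_re_lt (hP : P.IsPrime) {p : Ω} {g f f' E E' : C(Ω, ℂ)} (hg : g ∉ P)
    (hg1 : ∀ x, ‖g x‖ ≤ 2⁻¹) {l : Ω → ℝ} (hl : Continuous l) (hl0 : ∀ x, 0 ≤ l x) (hlp : l p = 0)
    (hl1 : ∀ x, g x = 0 → l x = 0)
    (hl2 : ∀ x, g x ≠ 0 → ‖g x‖ ≤ l x ^ 2 ∧ ‖g x‖ ^ (l x ^ 2) ≤ l x ^ 2)
    (hE0 : ∀ x, ‖(g ^ 5) x‖ ≤ ‖E x‖)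
    (hE : ∀ x, l x * ‖f x‖ < 2 * ‖g x‖ →
      ‖E x‖ = ‖g x‖ ^ (3 + l x * (f x * conj (g x)).re / ‖g x‖ ^ 2))
    (hE' : ∀ x, l x * ‖f' x‖ < 2 * ‖g x‖ →
      ‖E' x‖ = ‖g x‖ ^ (3 + l x * (f' x * conj (g x)).re / ‖g x‖ ^ 2))
    (hf : Big P {x | l x * ‖f x‖ < 2 * ‖g x‖}) (hf' : Big P {x | l x * ‖f' x‖ < 2 * ‖g x‖})
    (hnd : ¬ ∃ q : C(Ω, ℂ), q p = 0 ∧ E - E' * q ∈ P) :
    Big P {x | (f x * conj (g x)).re - (f' x * conj (g x)).re < 2 * l x * ‖g x‖ ^ 2} := by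
  let R : Ω → ℝ := fun x => (f x * conj (g x)).re - (f' x * conj (g x)).re
  have hcg := Complex.continuous_conj.comp g.continuous
  have hR : Continuous R := (Complex.continuous_re.comp (f.continuous.mul hcg)).sub
    (Complex.continuous_re.comp (f'.continuous.mul hcg))
  have hT : Continuous fun x => l x ^ 2 * ‖g x‖ ^ 2 := (hl.pow 2).mul (g.continuous.norm.pow 2)
  rcases big_or_big hP (u := fun x => l x * R x - l x ^ 2 * ‖g x‖ ^ 2)
    (v := fun x => 2 * (l x ^ 2 * ‖g x‖ ^ 2) - l x * R x) ((hl.mul hR).sub hT)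
    ((continuous_const.mul hT).sub (hl.mul hR)) (g := g ^ 3)
    (fun h => hg (hP.mem_of_pow_mem 3 h)) (fun x => by
      rw [ContinuousMap.pow_apply, norm_pow]
      by_cases hx : g x = 0
      · simp [hx]
      · nlinarith [(hl2 x hx).1, sq_nonneg ‖g x‖]) with h | h
  · exfalso
    obtain ⟨q, hq1, hq2⟩ := exists_dvd hP E E' (fun x => l x ^ 2) (hl.pow 2)
      (fun x => sq_nonneg _) (fun x hx _ => by
        have h1 := hE0 x
        rw [hx, norm_zero, norm_le_zero_iff, ContinuousMap.pow_apply] at h1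
        rw [hl1 x (pow_eq_zero_iff (by norm_num) |>.1 h1)]
        norm_num)
      (((h.inter hP hf).inter hP hf').mono fun x hx => by
        obtain ⟨⟨h1, h2⟩, h3⟩ := hx
        have h1' : 0 < l x * R x - l x ^ 2 * ‖g x‖ ^ 2 := h1
        have h2' : l x * ‖f x‖ < 2 * ‖g x‖ := h2
        have h4 : 0 < ‖g x‖ := by nlinarith [mul_nonneg (hl0 x) (norm_nonneg (f x))]
        show ‖E x‖ ≤ l x ^ 2 * ‖E' x‖
        rw [hE x h2, hE' x h3]
        have h5 : l x ^ 2 + (3 + l x * (f' x * conj (g x)).re / ‖g x‖ ^ 2) ≤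
            3 + l x * (f x * conj (g x)).re / ‖g x‖ ^ 2 := by
          have h6 : l x ^ 2 ≤ l x * R x / ‖g x‖ ^ 2 := by
            rw [le_div_iff₀ (pow_pos h4 2)]
            linarith
          simp only [R, mul_sub, sub_div] at h6
          linarith
        refine (Real.rpow_le_rpow_of_exponent_ge h4 (by linarith [hg1 x]) h5).trans ?_
        rw [Real.rpow_add h4]
        exact mul_le_mul_of_nonneg_right (hl2 x (norm_pos_iff.1 h4)).2 (by positivity))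
    refine hnd ⟨q, norm_le_zero_iff.1 ((hq1 p).trans ?_), hq2⟩
    simp [hlp]
  · refine h.mono fun x hx => ?_
    have h1 : 0 < 2 * (l x ^ 2 * ‖g x‖ ^ 2) - l x * R x := hx
    show R x < 2 * l x * ‖g x‖ ^ 2
    by_contra h2
    nlinarith [mul_le_mul_of_nonneg_left (not_lt.1 h2) (hl0 x)]

theorem exists_colour [CompactSpace Ω] (hP : P.IsPrime) {p : Ω} (N : AlgebraNorm ℂ (C(Ω, ℂ) ⧸ P))
    (M : Ideal (C(Ω, ℂ) ⧸ P)) (hM : ∀ f, Ideal.Quotient.mk P f ∈ M ↔ f p = 0)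
    (hq : ∀ u ∈ M, ∀ ε : ℝ, 0 < ε → ∀ᶠ k : ℕ in atTop, N (u ^ k) ≤ ε ^ k) (s : C(Ω, ℂ) ⧸ P) :
    ∃ J : C(Ω, ℂ) ⧸ P → (ℕ → ℝ) × (ℕ → ℝ), s ∈ M → s ≠ 0 → ∀ w w',
      (¬ ∃ m ∈ M, s = w * m) → (¬ ∃ m ∈ M, s = w' * m) → J w = J w' →
        ∃ m ∈ M, w - w' = s * m := by
  by_cases hs : ¬ (s ∈ M ∧ s ≠ 0)
  · exact ⟨fun _ => 0, fun h1 h2 => absurd ⟨h1, h2⟩ hs⟩
  obtain ⟨hsM, hs0⟩ := not_not.1 hs
  choose rep hrep using (Ideal.Quotient.mk_surjective (I := P))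
  have hc : (0 : ℝ) < 2 * (‖rep s‖ + 1) := by positivity
  have hc' : ((2 * (‖rep s‖ + 1) : ℝ) : ℂ) ≠ 0 := by exact_mod_cast hc.ne'
  obtain ⟨c, hc0, g, hgs, hg1⟩ : ∃ c : ℂ, c ≠ 0 ∧ ∃ g : C(Ω, ℂ),
      Ideal.Quotient.mk P (c • g) = s ∧ ∀ x, ‖g x‖ ≤ 2⁻¹ := by
    refine ⟨_, hc', ((2 * (‖rep s‖ + 1) : ℝ) : ℂ)⁻¹ • rep s, ?_, fun x => ?_⟩
    · rw [smul_smul, mul_inv_cancel₀ hc', one_smul, hrep]
    · rw [ContinuousMap.smul_apply, norm_smul, norm_inv, Complex.norm_real,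
        Real.norm_of_nonneg hc.le, inv_mul_le_iff₀ hc]
      linarith [(rep s).norm_coe_le_norm x]
  have hg : g ∉ P := fun h => hs0 (hgs ▸ Ideal.Quotient.eq_zero_iff_mem.2 (by
    rw [Algebra.smul_def]; exact P.mul_mem_left _ h))
  have hgp : g p = 0 := by
    have := (hM _).1 (hgs ▸ hsM)
    simpa [hc0] using this
  obtain ⟨L, hL1, hL2, hL3, hL4⟩ := exists_scale
  let l : Ω → ℝ := fun x => L ‖g x‖
  have hl : Continuous l := continuous_iff_continuousAt.2 fun x =>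
    ContinuousAt.comp (f := fun x => ‖g x‖) (hL1 _ ⟨norm_nonneg _, hg1 x⟩)
      g.continuous.norm.continuousAt
  have hl0 : ∀ x, 0 ≤ l x := fun x => hL3 _
  have hl1 : ∀ x, g x = 0 → l x = 0 := fun x hx => by simp [l, hx, hL2]
  have hl2 : ∀ x, g x ≠ 0 → ‖g x‖ ≤ l x ^ 2 ∧ ‖g x‖ ^ (l x ^ 2) ≤ l x ^ 2 := fun x hx =>
    hL4 _ ⟨norm_pos_iff.2 hx, hg1 x⟩
  have hlp := hl1 p hgp
  choose E hE1 hE2 hE3 using fun f => exists_power g f hg1 l hl hl0
  have hEP : ∀ f, Ideal.Quotient.mk P (E f) ≠ 0 := fun f h =>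
    hg (hP.mem_of_pow_mem 5 (mem_of_norm_le hP (Ideal.Quotient.eq_zero_iff_mem.1 h) (hE2 f)))
  have hS : ∀ w, (¬ ∃ m ∈ M, s = w * m) → Big P {x | l x * ‖rep w x‖ < 2 * ‖g x‖} := by
    intro w hw
    have h1 : Continuous fun x => l x * ‖rep w x‖ := hl.mul (rep w).continuous.norm
    rcases big_or_big hP (u := fun x => l x * ‖rep w x‖ - ‖g x‖)
      (v := fun x => 2 * ‖g x‖ - l x * ‖rep w x‖) (h1.sub g.continuous.norm)
      ((continuous_const.mul g.continuous.norm).sub h1) hg (fun x => by linarith) with h | h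
    · exfalso
      obtain ⟨q, hq1, hq2⟩ := exists_dvd hP g (rep w) l hl hl0 (fun x hx _ => hl1 x hx)
        (h.mono fun x hx => (sub_pos.1 hx : ‖g x‖ < l x * ‖rep w x‖).le)
      have h2 : q p = 0 := norm_le_zero_iff.1 (hlp ▸ hq1 p)
      refine hw ⟨Ideal.Quotient.mk P (c • q), (hM _).2 (by simp [h2]), ?_⟩
      rw [← hgs, Algebra.smul_def, Algebra.smul_def, map_mul, map_mul, Ideal.Quotient.eq.2 hq2,
        map_mul, hrep]
      ring
    · exact h.mono fun x hx => (sub_pos.1 hx : l x * ‖rep w x‖ < 2 * ‖g x‖)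
  have hkey : ∀ f f' : C(Ω, ℂ), Big P {x | l x * ‖f x‖ < 2 * ‖g x‖} →
      Big P {x | l x * ‖f' x‖ < 2 * ‖g x‖} →
      ((fun k : ℕ => N (Ideal.Quotient.mk P (E f') ^ k)) =
        fun k : ℕ => N (Ideal.Quotient.mk P (E f) ^ k)) →
      Big P {x | (f x * conj (g x)).re - (f' x * conj (g x)).re < 2 * l x * ‖g x‖ ^ 2} := by
    intro f f' hf hf' h
    refine big_re_lt hP hg hg1 hl hl0 hlp hl1 hl2 (hE2 f) (hE3 f) (hE3 f') hf hf' ?_
    rintro ⟨q, hq1, hq2⟩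
    exact not_dvd_of_pow_eq N M hq (hEP f) h
      ⟨_, (hM q).2 hq1, by rw [Ideal.Quotient.eq.2 hq2, map_mul]⟩
  refine ⟨fun w => (fun k => N (Ideal.Quotient.mk P (E (rep w)) ^ k),
    fun k => N (Ideal.Quotient.mk P (E (Complex.I • rep w)) ^ k)), fun _ _ w w' hw hw' hJ => ?_⟩
  have h1 := hS w hw
  have h2 := hS w' hw'
  have hI : ∀ f : C(Ω, ℂ), Big P {x | l x * ‖f x‖ < 2 * ‖g x‖} →
      Big P {x | l x * ‖(Complex.I • f) x‖ < 2 * ‖g x‖} := fun f hf => by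
    simpa [norm_smul] using hf
  have h3 := hkey _ _ h1 h2 (congrArg Prod.fst hJ).symm
  have h4 := hkey _ _ h2 h1 (congrArg Prod.fst hJ)
  have h5 := hkey _ _ (hI _ h1) (hI _ h2) (congrArg Prod.snd hJ).symm
  have h6 := hkey _ _ (hI _ h2) (hI _ h1) (congrArg Prod.snd hJ)
  obtain ⟨q, hq1, hq2⟩ := exists_dvd hP (rep w - rep w') g (fun x => 4 * l x)
    (continuous_const.mul hl) (fun x => mul_nonneg (by norm_num) (hl0 x))
    (fun x _ hx => by rw [hl1 x hx, mul_zero])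
    (((((h1.inter hP h3).inter hP h4).inter hP h5).inter hP h6).mono fun x hx => by
      obtain ⟨⟨⟨⟨a1, a3⟩, a4⟩, a5⟩, a6⟩ := hx
      simp only [Set.mem_ofPred_eq, ContinuousMap.smul_apply, smul_eq_mul, mul_assoc,
        Complex.I_mul_re] at a1 a3 a4 a5 a6
      have a7 : 0 < ‖g x‖ := by nlinarith [mul_nonneg (hl0 x) (norm_nonneg (rep w x))]
      have a8 := Complex.norm_le_abs_re_add_abs_im ((rep w x - rep w' x) * conj (g x))
      rw [norm_mul, Complex.norm_conj, sub_mul, Complex.sub_re, Complex.sub_im] at a8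
      have a9 : |(rep w x * conj (g x)).re - (rep w' x * conj (g x)).re| ≤
          2 * (l x * ‖g x‖ ^ 2) := abs_le.2 ⟨by linarith, by linarith⟩
      have a10 : |(rep w x * conj (g x)).im - (rep w' x * conj (g x)).im| ≤
          2 * (l x * ‖g x‖ ^ 2) := abs_le.2 ⟨by linarith, by linarith⟩
      show ‖rep w x - rep w' x‖ ≤ 4 * l x * ‖g x‖
      refine le_of_mul_le_mul_right ?_ a7
      nlinarith)
  have h7 : q p = 0 := norm_le_zero_iff.1 ((hq1 p).trans (by simp [hlp]))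
  refine ⟨Ideal.Quotient.mk P (c⁻¹ • q), (hM _).2 (by simp [h7]), ?_⟩
  rw [← hgs, ← map_mul, smul_mul_smul_comm, mul_inv_cancel₀ hc0, one_smul,
    ← Ideal.Quotient.eq.2 hq2, map_sub, hrep, hrep]

theorem card_eq [CompactSpace Ω] [T2Space Ω] (hP : P.IsPrime)
    (N : AlgebraNorm ℂ (C(Ω, ℂ) ⧸ P)) : #(C(Ω, ℂ) ⧸ P) = 𝔠 := by
  obtain ⟨p, hp⟩ : ∃ p : Ω, ∀ f ∈ P, f p = 0 := by
    obtain ⟨m, hm, hPm⟩ := P.exists_le_maximal hP.ne_top
    obtain ⟨p, hp⟩ := (ContinuousMap.ideal_isMaximal_iff m).1 hm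
    exact ⟨p, fun f hf => (ContinuousMap.mem_idealOfSet_compl_singleton p f).1 (hp ▸ hPm hf)⟩
  let ev : C(Ω, ℂ) ⧸ P →+* ℂ :=
    Ideal.Quotient.lift P (ContinuousMap.evalAlgHom ℂ ℂ p).toRingHom hp
  have hev : ∀ f, ev (Ideal.Quotient.mk P f) = f p := fun f => rfl
  have hev' : ∀ z : ℂ, ev (algebraMap ℂ _ z) = z := fun z => by
    rw [← Ideal.Quotient.mk_algebraMap, hev]
    simp
  let M := RingHom.ker ev
  have hq : ∀ u ∈ M, ∀ ε : ℝ, 0 < ε → ∀ᶠ k : ℕ in atTop, N (u ^ k) ≤ ε ^ k := by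
    intro u hu ε hε
    obtain ⟨f, rfl⟩ := Ideal.Quotient.mk_surjective u
    have hf : f p = 0 := hu
    refine small_pow N _ (fun l => ?_) hε
    exact isUnit_mk hP hp (f := 1 - l • f) (by simp [hf])
  choose J hJ using exists_colour hP N M (fun f => Iff.rfl) hq
  have h1 : #((ℕ → ℝ) × (ℕ → ℝ)) ≤ 𝔠 := by
    simp only [mk_prod, lift_id]
    rw [← power_def, mk_real, mk_nat, continuum_power_aleph0, continuum_mul_self]
  have h2 := card_le_abstract N M hq h1 J hJ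
  refine le_antisymm ?_ ?_
  · have h3 : Function.Injective fun a : C(Ω, ℂ) ⧸ P =>
        ((⟨a - algebraMap ℂ _ (ev a), by
          rw [RingHom.mem_ker, map_sub, hev', sub_self]⟩ : M), ev a) := by
      intro a b hab
      have h4 : ev a = ev b := congrArg Prod.snd hab
      have h5 : a - algebraMap ℂ _ (ev a) = b - algebraMap ℂ _ (ev b) :=
        congrArg (fun x : M × ℂ => (x.1 : C(Ω, ℂ) ⧸ P)) hab
      rw [h4] at h5
      exact sub_left_injective h5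
    refine (mk_le_of_injective h3).trans ?_
    rw [mk_prod, lift_id, lift_id, mk_complex]
    exact mul_le_of_le aleph0_le_continuum h2 le_rfl
  · rw [← mk_complex]
    exact mk_le_of_injective (f := algebraMap ℂ (C(Ω, ℂ) ⧸ P)) fun z z' h => by
      rw [← hev' z, h, hev']

end Pool.Agent.P.MP_fe901c_an.Card
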