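import Mathlib

/-! A coherent system of finite sets on a well-order with countable initial segments. -/

namespace Pool.Agent.P.MP_fe901c_an

variable {W : Type} [LinearOrder W]

/-- `g` is an admissible value at `β`, given the values `G` below `β`. -/
structure Adm (G : W → ℕ → Finset W) (β : W) (g : ℕ → Finset W) : Prop where
  self : ∀ i, β ∈ g i
  le : ∀ i ξ, ξ ∈ g i → ξ ≤ β
  mono : ∀ i j, i ≤ j → g i ⊆ g j
  ex : ∀ ξ, ξ ≤ β → ∃ i, ξ ∈ g i
  coh : ∀ i ξ, ξ < β → ξ ∈ g i → ∀ η, η ∈ G ξ i ↔ η ∈ g i ∧ η ≤ ξ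

theorem Adm.coh' {G : W → ℕ → Finset W} {β : W} (h : Adm G β (G β)) {i : ℕ} {ξ : W}
    (hξ : ξ ∈ G β i) (η : W) : η ∈ G ξ i ↔ η ∈ G β i ∧ η ≤ ξ := by
  rcases (h.le i ξ hξ).lt_or_eq with h1 | rfl
  · exact h.coh i ξ h1 hξ η
  · exact ⟨fun h2 => ⟨h2, h.le i η h2⟩, fun h2 => h2.1⟩

theorem adm_step (G : W → ℕ → Finset W) (β : W) (hc : (Set.Iio β).Countable)
    (ih : ∀ ξ, ξ < β → Adm G ξ (G ξ)) : ∃ g, Adm G β g := by
  rcases (Set.Iio β).eq_empty_or_nonempty with h | h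
  · have h0 : ∀ ξ, ¬ ξ < β := fun ξ hξ => (h ▸ (hξ : ξ ∈ Set.Iio β) : ξ ∈ (∅ : Set W))
    refine ⟨fun _ => {β}, fun _ => Finset.mem_singleton_self _,
      fun _ _ h => (Finset.mem_singleton.1 h).le, fun _ _ _ => subset_rfl,
      fun ξ hξ => ⟨0, Finset.mem_singleton.2 (hξ.lt_or_eq.resolve_left (h0 ξ))⟩,
      fun _ ξ hξ => (h0 ξ hξ).elim⟩
  obtain ⟨e, he⟩ := hc.exists_eq_range h
  have he1 : ∀ k, e k < β := fun k => (he ▸ Set.mem_range_self k : e k ∈ Set.Iio β)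
  let b : ℕ → W := fun k => Nat.rec (e 0) (fun k x => max x (e (k + 1))) k
  have hb1 : ∀ k, b k < β := fun k => by
    induction k with
    | zero => exact he1 0
    | succ k ih => exact max_lt ih (he1 _)
  have hb2 : ∀ k, e k ≤ b k := fun k => by
    cases k with
    | zero => exact le_rfl
    | succ k => exact le_max_right _ _
  have hb3 : ∀ k, b k ≤ b (k + 1) := fun k => le_max_left _ _
  choose n hn using fun k => (ih _ (hb1 (k + 1))).ex _ (hb3 k)
  have chain : ∀ i k k', k ≤ k' → (∀ j < k', n j ≤ i) → b k ∈ G (b k') i := fun i k k' hk => by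
    induction k', hk using Nat.le_induction with
    | base => exact fun _ => (ih _ (hb1 k)).self i
    | succ k' hk ih' =>
      intro h1
      have h2 := (ih _ (hb1 (k' + 1))).mono _ _ (h1 k' (Nat.lt_succ_self _)) (hn k')
      exact (((ih _ (hb1 (k' + 1))).coh' h2 _).1 (ih' fun j hj => h1 j (by omega))).1
  let K : ℕ → ℕ := fun i => Nat.findGreatest (fun k => ∀ j < k, n j ≤ i) i
  have hK1 : ∀ i, ∀ j < K i, n j ≤ i := fun i =>
    Nat.findGreatest_spec (P := fun k => ∀ j < k, n j ≤ i) (Nat.zero_le i) (by simp)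
  have hK2 : ∀ i k, k ≤ i → (∀ j < k, n j ≤ i) → k ≤ K i := fun i k h1 h2 =>
    Nat.le_findGreatest (P := fun k => ∀ j < k, n j ≤ i) h1 h2
  have sub : ∀ i k, k ≤ K i → G (b k) i ⊆ G (b (K i)) i := fun i k hk η hη =>
    (((ih _ (hb1 _)).coh' (chain i k _ hk (hK1 i)) η).1 hη).1
  refine ⟨fun i => insert β (G (b (K i)) i), fun _ => Finset.mem_insert_self _ _,
    fun i ξ hξ => ?_, fun i j hij => ?_, fun ξ hξ => ?_, fun i ξ hξ h1 η => ?_⟩
  · rcases Finset.mem_insert.1 hξ with rfl | h1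
    · exact le_rfl
    · exact (((ih _ (hb1 _)).le _ _ h1).trans_lt (hb1 _)).le
  · refine Finset.insert_subset_insert _ (((ih _ (hb1 _)).mono _ _ hij).trans (sub j _ ?_))
    exact hK2 j _ ((Nat.findGreatest_le i).trans hij) fun l hl => (hK1 i l hl).trans hij
  · rcases hξ.lt_or_eq with h1 | rfl
    · obtain ⟨k, rfl⟩ : ξ ∈ Set.range e := he ▸ (h1 : ξ ∈ Set.Iio β)
      obtain ⟨m, hm⟩ := (ih _ (hb1 k)).ex _ (hb2 k)
      refine ⟨k + m + (Finset.range k).sup n, Finset.mem_insert_of_mem (sub _ k ?_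
        ((ih _ (hb1 k)).mono _ _ (by omega) hm))⟩
      refine hK2 _ _ (by omega) fun j hj => ?_
      have := Finset.le_sup (f := n) (Finset.mem_range.2 hj)
      omega
    · exact ⟨0, Finset.mem_insert_self _ _⟩
  · have h2 := (Finset.mem_insert.1 h1).resolve_left hξ.ne
    rw [(ih _ (hb1 _)).coh' h2 η, Finset.mem_insert]
    refine ⟨fun h3 => ⟨.inr h3.1, h3.2⟩, fun h3 => ⟨h3.1.resolve_left ?_, h3.2⟩⟩
    exact (h3.2.trans_lt hξ).ne

theorem Adm.congr {G G' : W → ℕ → Finset W} {β : W} {g : ℕ → Finset W} (h : Adm G β g)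
    (e : ∀ ξ, ξ < β → G ξ = G' ξ) : Adm G' β g :=
  ⟨h.self, h.le, h.mono, h.ex, fun i ξ h1 h2 η => e ξ h1 ▸ h.coh i ξ h1 h2 η⟩

theorem exists_adm [WellFoundedLT W] (hc : ∀ β : W, (Set.Iio β).Countable) :
    ∃ G : W → ℕ → Finset W, ∀ β, Adm G β (G β) := by
  classical
  let ext : (β : W) → ((ξ : W) → ξ < β → ℕ → Finset W) → W → ℕ → Finset W :=
    fun β p ξ => if h : ξ < β then p ξ h else fun _ => ∅
  let F : (β : W) → ((ξ : W) → ξ < β → ℕ → Finset W) → ℕ → Finset W :=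
    fun β p => if h : ∃ g, Adm (ext β p) β g then h.choose else fun _ => ∅
  let G : W → ℕ → Finset W := WellFounded.fix wellFounded_lt F
  have hG : ∀ β, G β = F β fun ξ _ => G ξ := fun β => WellFounded.fix_eq _ _ _
  refine ⟨G, fun β => ?_⟩
  induction β using WellFoundedLT.induction with
  | ind β ih =>
    have e : ∀ ξ, ξ < β → G ξ = ext β (fun ξ _ => G ξ) ξ := fun ξ h => by simp [ext, h]
    obtain ⟨g, hg⟩ := adm_step G β (hc β) ih
    have h1 : ∃ g, Adm (ext β fun ξ _ => G ξ) β g := ⟨g, hg.congr e⟩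
    have h2 : G β = h1.choose := by rw [hG]; simp only [F]; rw [dif_pos h1]
    have h3 := h1.choose_spec.congr fun ξ h => (e ξ h).symm
    rwa [← h2] at h3

section Scale

variable {G : W → ℕ → Finset W} (hG : ∀ β, Adm G β (G β)) (g : W → ℕ → ℝ)
  (h0 : ∀ ξ i, 0 < g ξ i) (h4 : ∀ ξ i, g ξ i ≤ 1 / 4)

/-- The scale. -/
noncomputable def del (G : W → ℕ → Finset W) (g : W → ℕ → ℝ) (β : W) (i : ℕ) : ℝ :=
  ∏ ξ ∈ G β i, g ξ i

omit [LinearOrder W] in
include h0 in
theorem del_pos (β : W) (i : ℕ) : 0 < del G g β i := Finset.prod_pos fun ξ _ => h0 ξ i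

include hG h0 h4 in
theorem del_le (β : W) (i : ℕ) : del G g β i ≤ g β i := by
  rw [del, ← Finset.mul_prod_erase _ _ ((hG β).self i)]
  exact mul_le_of_le_one_right (h0 _ _).le
    (Finset.prod_le_one (fun ξ _ => (h0 ξ i).le) fun ξ _ => (h4 ξ i).trans (by norm_num))

include hG h0 h4 in
/-- The geometric tail bound. -/
theorem tail_le [WellFoundedLT W] (i : ℕ) (α β : W) (h : α ∈ G β i) :
    ∑ ξ ∈ G β i \ G α i, del G g ξ i ≤ (del G g α i - del G g β i) / 3 := by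
  induction β using WellFoundedLT.induction with
  | ind β ih =>
    rcases ((hG β).le i α h).lt_or_eq with h1 | rfl
    swap
    · simp
    have hne : ((G β i).erase β).Nonempty := ⟨α, Finset.mem_erase.2 ⟨h1.ne, h⟩⟩
    obtain ⟨γ, hγ, hm⟩ := Finset.exists_max_image _ id hne
    rw [Finset.mem_erase] at hγ
    have hγβ : γ < β := lt_of_le_of_ne ((hG β).le i γ hγ.2) hγ.1
    have e : G β i = insert β (G γ i) := by
      ext η
      rw [Finset.mem_insert, (hG β).coh' hγ.2 η]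
      refine ⟨fun h2 => ?_, fun h2 => ?_⟩
      · by_cases h3 : η = β
        · exact .inl h3
        · exact .inr ⟨h2, hm η (Finset.mem_erase.2 ⟨h3, h2⟩)⟩
      · rcases h2 with rfl | h2
        exacts [(hG η).self i, h2.1]
    have hn : β ∉ G γ i := fun h2 => ((hG γ).le i β h2).not_gt hγβ
    have hα : α ∈ G γ i := ((hG β).coh' hγ.2 α).2 ⟨h, hm α (Finset.mem_erase.2 ⟨h1.ne, h⟩)⟩
    have h5 := ih γ hγβ hα
    have h6 : del G g β i = g β i * del G g γ i := by rw [del, e, Finset.prod_insert hn]; rfl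
    have h7 : G β i \ G α i = insert β (G γ i \ G α i) := by
      rw [e, Finset.insert_sdiff_of_notMem _ fun h2 => ((hG α).le i β h2).not_gt h1]
    rw [h7, Finset.sum_insert fun h2 => hn (Finset.mem_sdiff.1 h2).1]
    have h8 := del_pos (G := G) g h0 γ i
    have h9 := h4 β i
    nlinarith

end Scale

end Pool.Agent.P.MP_fe901c_an
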