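import Pool.Agent.P.MP_fe901c_an.Sys
import Pool.Agent.P.MP_fe901c_an.Rho

namespace Pool.Agent.P.MP_fe901c_an

open Filter Topology Cardinal

section

variable {W : Type} [LinearOrder W] [WellFoundedLT W] [Nonempty W]
  {G : W → ℕ → Finset W} (hG : ∀ β, Adm G β (G β)) (g : W → ℕ → ℝ)
  (h0 : ∀ ξ i, 0 < g ξ i) (h4 : ∀ ξ i, g ξ i ≤ 1 / 4)
  (hg : ∀ ε : ℕ → ℝ, (∀ i, 0 < ε i) → ∃ γ, ∀ i, g γ i ≤ ε i)

/-- The coordinates. -/
def Co (G : W → ℕ → Finset W) (g : W → ℕ → ℝ) : Type :=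
  {F : W → ℕ → ℂ // (∀ α i, ‖F α i‖ ≤ 1) ∧ ∀ α β i, α ∈ G β i → ‖F β i - F α i‖ ≤ del G g α i}

/-- The compact space. -/
abbrev Om (G : W → ℕ → Finset W) (g : W → ℕ → ℝ) : Type := Co G g → Metric.closedBall (0 : ℂ) 1

instance : CompactSpace (Metric.closedBall (0 : ℂ) 1) :=
  isCompact_iff_compactSpace.1 (isCompact_closedBall _ _)

/-- The points. -/
def pt (x : W × ℕ) : Om G g := fun F => ⟨F.1 x.1 x.2, mem_closedBall_zero_iff.2 (F.2.1 _ _)⟩

/-- Coordinate functions. -/
def cf (F : Co G g) : C(Om G g, ℂ) := ⟨fun w => (w F : ℂ), by fun_prop⟩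

omit [LinearOrder W] [WellFoundedLT W] [Nonempty W] in
theorem unif (H : C(Om G g, ℂ)) {ε : ℝ} (hε : 0 < ε) :
    ∃ δ > 0, ∀ p q : Om G g, (∀ F, dist (p F) (q F) ≤ δ) → ‖H p - H q‖ ≤ ε := by
  have h1 : UniformContinuous H := CompactSpace.uniformContinuous_of_continuous H.continuous
  have h2 : UniformContinuous 
      (UniformFun.toFun : UniformFun (Co G g) (Metric.closedBall (0 : ℂ) 1) → _) :=
    UniformFun.uniformContinuous_toFun
  have h3 := (h1.comp h2) (Metric.dist_mem_uniformity hε)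
  rw [mem_map, (UniformFun.hasBasis_uniformity_of_basis _ _
    Metric.uniformity_basis_dist_le).mem_iff] at h3
  obtain ⟨δ, h5, h6⟩ := h3
  refine ⟨δ, h5, fun p q h => ?_⟩
  have := h6 (a := (UniformFun.ofFun p, UniformFun.ofFun q)) h
  rw [← dist_eq_norm]
  exact le_of_lt this

/-- The filter. -/
noncomputable def LL (W : Type) [LinearOrder W] : Filter (W × ℕ) :=
  (atTop : Filter W).curry (hyperfilter ℕ)

omit [WellFoundedLT W] [Nonempty W] in
include hG in
theorem ev_mem (γ : W) : ∀ᶠ x in LL W, γ ∈ G x.1 x.2 := by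
  rw [LL, eventually_curry_iff]
  filter_upwards [eventually_ge_atTop γ] with β hβ
  obtain ⟨i, hi⟩ := (hG β).ex γ hβ
  refine ((eventually_ge_atTop i).filter_mono Nat.hyperfilter_le_atTop).mono fun j hj => ?_
  exact (hG β).mono _ _ hj hi

/-- The system. -/
noncomputable def sys : Sys (Om G g) (W × ℕ) where
  L := LL W
  π := Prod.snd
  z := pt g
  ne := by
    rw [← forall_mem_nonempty_iff_neBot]
    intro s hs
    obtain ⟨β, hβ⟩ := (eventually_curry_iff.1 hs).exists
    obtain ⟨i, hi⟩ := hβ.exists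
    exact ⟨_, hi⟩
  top := fun s hs => eventually_curry_iff.2 (.of_forall fun _ => Nat.hyperfilter_le_atTop hs)
  lift s C h := by
    have hC : 0 < C + 1 := by linarith [(norm_nonneg _).trans (h 0)]
    have hC' : ((C + 1 : ℝ) : ℂ) ≠ 0 := by exact_mod_cast hC.ne'
    refine ⟨((C + 1 : ℝ) : ℂ) • cf g ⟨fun _ i => s i / (C + 1 : ℝ), fun _ i => ?_,
      fun α _ i _ => by simpa using (del_pos g h0 α i).le⟩, fun x => ?_⟩
    · rw [norm_div, Complex.norm_real, Real.norm_of_nonneg hC.le, div_le_one hC]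
      linarith [h i]
    · exact mul_div_cancel₀ _ hC'
  approx H ε hε := by
    choose δ h1 h2 using fun i => unif g H (hε i)
    obtain ⟨γ, hγ⟩ := hg δ h1
    refine ⟨fun i => pt g (γ, i), (ev_mem hG γ).mono fun x hx => h2 _ _ _ fun F => ?_⟩
    exact (dist_eq_norm _ _).trans_le
      ((F.2.2 _ _ _ hx).trans ((del_le hG g h0 h4 _ _).trans (hγ _)))
  ultra T := by
    rcases (hyperfilter ℕ).mem_or_compl_mem {i | T i} with h | h
    · exact .inl (eventually_curry_iff.2 (.of_forall fun _ => h))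
    · exact .inr (eventually_curry_iff.2 (.of_forall fun _ => h))

/-- The branch sums. -/
noncomputable def br (G : W → ℕ → Finset W) (g : W → ℕ → ℝ) (f : W → Bool) (β : W) (i : ℕ) : ℝ :=
  ∑ ξ ∈ G β i, if f ξ then del G g ξ i else 0

omit [Nonempty W] in
include hG h0 h4 in
theorem br_sub (f : W → Bool) {α β : W} {i : ℕ} (h : α ∈ G β i) :
    0 ≤ br G g f β i - br G g f α i ∧ br G g f β i - br G g f α i ≤ del G g α i / 3 := by
  have hs : G α i ⊆ G β i := fun η hη => (((hG β).coh' h η).1 hη).1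
  rw [br, br, ← Finset.sum_sdiff hs, add_sub_cancel_right]
  refine ⟨Finset.sum_nonneg fun ξ _ => ?_, (Finset.sum_le_sum fun ξ _ => ?_).trans
    ((tail_le hG g h0 h4 i α β h).trans (by linarith [del_pos (G := G) g h0 β i]))⟩
  all_goals have := del_pos (G := G) g h0 ξ i; split_ifs <;> linarith

omit [Nonempty W] in
include hG h0 h4 in
theorem br_le (f : W → Bool) (β : W) (i : ℕ) : |br G g f β i| ≤ 1 := by
  obtain ⟨α, h1, h2⟩ := Finset.exists_min_image _ id ⟨β, (hG β).self i⟩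
  have e : G α i = {α} := by
    ext η
    rw [(hG β).coh' h1, Finset.mem_singleton]
    exact ⟨fun h => le_antisymm h.2 (h2 η h.1), fun h => by rw [h]; exact ⟨h1, le_rfl⟩⟩
  have h3 := br_sub hG g h0 h4 f h1
  have h5 := del_pos (G := G) g h0 α i
  have h6 := (del_le hG g h0 h4 α i).trans (h4 α i)
  have h7 : br G g f α i = if f α then del G g α i else 0 := by rw [br, e, Finset.sum_singleton]
  rw [abs_le]
  split_ifs at h7 <;> constructor <;> linarith [h3.1, h3.2]

/-- The coordinate of a branch. -/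
noncomputable def brCo (f : W → Bool) : Co G g :=
  ⟨fun β i => (br G g f β i : ℂ), fun β i => by
    rw [Complex.norm_real]; exact br_le hG g h0 h4 f β i, fun α β i h => by
    have := br_sub hG g h0 h4 f h
    rw [← Complex.ofReal_sub, Complex.norm_real, Real.norm_of_nonneg this.1]
    linarith [this.2, del_pos (G := G) g h0 α i]⟩

theorem br_inj : Function.Injective fun f : W → Bool =>
    Ideal.Quotient.mk (sys hG g h0 h4 hg).I (cf g (brCo hG g h0 h4 f)) := by
  intro f f' h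
  by_contra hne
  obtain ⟨α, h1, h2⟩ := wellFounded_lt.has_min {ξ | f ξ ≠ f' ξ} (Function.ne_iff.1 hne)
  refine (sys hG g h0 h4 hg).not_mem (ε := fun i => del G g α i / 3)
    (fun i => by linarith [del_pos (G := G) g h0 α i]) ?_ (Ideal.Quotient.eq.1 h)
  refine (ev_mem hG α).mono fun x hx => ?_
  change del G g α x.2 / 3 ≤ ‖(br G g f x.1 x.2 : ℂ) - (br G g f' x.1 x.2 : ℂ)‖
  rw [← Complex.ofReal_sub, Complex.norm_real, Real.norm_eq_abs]
  have a1 := br_sub hG g h0 h4 f hx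
  have a2 := br_sub hG g h0 h4 f' hx
  have a3 : br G g f α x.2 - br G g f' α x.2 =
      (if f α then del G g α x.2 else 0) - if f' α then del G g α x.2 else 0 := by
    rw [br, br, ← Finset.sum_sub_distrib, Finset.sum_eq_single_of_mem α ((hG α).self _)]
    intro ξ h3 h5
    have : f ξ = f' ξ := by
      by_contra h6
      exact h2 ξ h6 (lt_of_le_of_ne ((hG α).le _ _ h3) h5)
    rw [this, sub_self]
  have a4 := del_pos (G := G) g h0 α x.2
  rw [le_abs]
  have h1' : f α ≠ f' α := h1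
  cases e1 : f α <;> cases e2 : f' α <;> simp only [e1, e2, ne_eq, not_true_eq_false] at h1'
  · right
    simp only [e1, e2] at a3
    norm_num at a3
    linarith [a1.1, a1.2, a2.1, a2.2]
  · left
    simp only [e1, e2] at a3
    norm_num at a3
    linarith [a1.1, a1.2, a2.1, a2.2]

omit [WellFoundedLT W] in
theorem card_quot_le : #(C(Om G g, ℂ) ⧸ (sys hG g h0 h4 hg).I) ≤ #(W × ℕ → ℂ) := by
  refine mk_le_of_injective (f := fun a x => (Ideal.Quotient.mk_surjective a).choose (pt g x))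
    fun a b h => ?_
  rw [← (Ideal.Quotient.mk_surjective a).choose_spec, ← (Ideal.Quotient.mk_surjective b).choose_spec,
    Ideal.Quotient.eq]
  exact (sys hG g h0 h4 hg).mem_of_zero (.of_forall fun x => sub_eq_zero.2 (congrFun h x))

end

theorem main (h1 : (2 : Cardinal.{0}) ^ aleph 0 = aleph 1) :
    ∃ (Ω : Type) (_ : TopologicalSpace Ω) (_ : CompactSpace Ω) (_ : T2Space Ω) (_ : Nonempty Ω)
      (P : Ideal C(Ω, ℂ)), P.IsPrime ∧ ¬ P.IsMaximal ∧ #(C(Ω, ℂ) ⧸ P) = 2 ^ aleph 1 ∧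
      #(Quot (Arch P)) = aleph 1 ∧ IsEmpty (AlgebraNorm ℂ (C(Ω, ℂ) ⧸ P)) := by
  have hc : 𝔠 = aleph 1 := by rw [← h1, aleph_zero, two_power_aleph0]
  let W := (aleph 1 : Cardinal.{0}).ord.ToType
  have hW : #W = aleph 1 := by simp [W]
  have hI : ∀ β : W, (Set.Iio β).Countable := fun β => by
    rw [← le_aleph0_iff_set_countable, ← Order.lt_succ_iff, succ_aleph0]
    exact (mk_Iio_lt β (by simp [W])).trans_eq hW
  have : Nonempty W := by rw [← mk_ne_zero_iff, hW]; exact (aleph_pos 1).ne'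
  obtain ⟨G, hG⟩ := exists_adm hI
  obtain ⟨e⟩ : Nonempty (W ≃ (ℕ → ℝ)) := by
    rw [← Cardinal.eq, hW, ← hc]; simp [mk_real]
  let g : W → ℕ → ℝ := fun ξ i => if 0 < e ξ i then min (e ξ i) (1 / 4) else 1 / 4
  have h0 : ∀ ξ i, 0 < g ξ i := fun ξ i => by
    simp only [g]; split_ifs with h
    exacts [lt_min h (by norm_num), by norm_num]
  have h4 : ∀ ξ i, g ξ i ≤ 1 / 4 := fun ξ i => by
    simp only [g]; split_ifs with h
    exacts [min_le_right _ _, le_rfl]
  have hg : ∀ ε : ℕ → ℝ, (∀ i, 0 < ε i) → ∃ γ, ∀ i, g γ i ≤ ε i := fun ε h =>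
    ⟨e.symm ε, fun i => by simp [g, h i]⟩
  let S := sys hG g h0 h4 hg
  have hA : #(C(Om G g, ℂ) ⧸ S.I) = 2 ^ aleph 1 := by
    refine le_antisymm ((card_quot_le hG g h0 h4 hg).trans_eq ?_) ?_
    · rw [← power_def, mk_prod, lift_id, lift_id, hW, mk_nat, mk_complex,
        mul_eq_left (aleph0_le_aleph 1) (aleph0_le_aleph 1) aleph0_ne_zero, ← two_power_aleph0,
        ← power_mul, mul_eq_right (aleph0_le_aleph 1) (aleph0_le_aleph 1) aleph0_ne_zero]
    · have := mk_le_of_injective (br_inj hG g h0 h4 hg)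
      rwa [← power_def, mk_bool, hW] at this
  refine ⟨Om G g, inferInstance, inferInstance, inferInstance, ⟨fun _ => ⟨0, by simp⟩⟩, S.I,
    S.isPrime, S.not_isMaximal, hA, le_antisymm (hc ▸ S.card_val_le) ?_, S.not_normable ?_⟩
  · rw [← succ_aleph0, Order.succ_le_iff]
    exact S.card_val_gt
  · rw [hA, hc]
    exact cantor _

end Pool.Agent.P.MP_fe901c_an
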