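import Mathlib

/-! A normed domain with a quasi-nilpotent element has at most `|D| ^ ω` elements when `D` is
dense for the topology of the principal ideals. -/

namespace Pool.Agent.P.MP_fe901c_an

open Filter Topology Cardinal

theorem small_pow_banach {B : Type} [NormedRing B] [NormedAlgebra ℂ B] [CompleteSpace B] (a : B)
    (ha : ∀ l : ℂ, IsUnit (1 - l • a)) {ε : ℝ} (hε : 0 < ε) : ∀ᶠ n : ℕ in atTop, ‖a ^ n‖ ≤ ε ^ n := by
  have h0 : spectralRadius ℂ a = 0 := by
    refine le_antisymm (iSup₂_le fun k hk => ?_) zero_le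
    by_cases h : k = 0
    · simp [h]
    · exfalso
      apply hk
      have h1 : algebraMap ℂ B k - a = algebraMap ℂ B k * (1 - k⁻¹ • a) := by
        rw [mul_sub, mul_one, ← Algebra.smul_def, smul_smul, mul_inv_cancel₀ h, one_smul]
      rw [resolventSet, Set.mem_ofPred_eq, h1]
      exact ((IsUnit.mk0 k h).map _).mul (ha _)
  have h1 := spectrum.pow_norm_pow_one_div_tendsto_nhds_spectralRadius a
  rw [h0] at h1
  have h2 := h1.eventually (gt_mem_nhds (ENNReal.ofReal_pos.2 hε))
  filter_upwards [h2, eventually_gt_atTop 0] with n h3 hn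
  rw [ENNReal.ofReal_lt_ofReal_iff hε] at h3
  have h4 : (‖a ^ n‖ ^ (1 / n : ℝ)) ^ n ≤ ε ^ n :=
    pow_le_pow_left₀ (by positivity) h3.le n
  rwa [← Real.rpow_natCast, ← Real.rpow_mul (norm_nonneg _), one_div_mul_cancel (by positivity),
    Real.rpow_one] at h4

variable {A : Type} [CommRing A] [Algebra ℂ A]

theorem small_pow (N : AlgebraNorm ℂ A) (a : A) (ha : ∀ l : ℂ, IsUnit (1 - l • a)) {ε : ℝ}
    (hε : 0 < ε) : ∀ᶠ n : ℕ in atTop, N (a ^ n) ≤ ε ^ n := by
  let _ : NormedRing A := N.toRingNorm.toNormedRing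
  let _ : NormedCommRing A := { (inferInstance : NormedRing A) with mul_comm := mul_comm }
  let _ : NormedAlgebra ℂ A := { norm_smul_le := fun r x => (N.smul' r x).le }
  let φ : A →+* UniformSpace.Completion A := UniformSpace.Completion.coeRingHom
  have h := small_pow_banach (φ a) (fun l => by
    have := (ha l).map φ
    rw [map_sub, map_one] at this
    convert this using 2
    exact (UniformSpace.Completion.coe_smul l a).symm) hε
  filter_upwards [h] with n hn
  rw [← map_pow] at hn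
  exact (UniformSpace.Completion.norm_coe (a ^ n)).symm.trans_le hn

theorem card_le [IsDomain A] (N : AlgebraNorm ℂ A) (a : A) (ha0 : a ≠ 0)
    (ha : ∀ l : ℂ, IsUnit (1 - l • a)) {ι : Type} (d : ι → A)
    (hd : ∀ x u : A, u ≠ 0 → ∃ i, u ∣ x - d i) : #A ≤ #(ℕ → ι × ℝ) := by
  let S : A → ℕ → Set ℝ := fun x n => {r | ∃ i w, x - d i = a ^ n * w ∧ N w = r}
  have hb : ∀ x n, BddBelow (S x n) := fun x n => ⟨0, fun r ⟨_, w, _, h⟩ => h ▸ apply_nonneg N w⟩
  have hne : ∀ x n, (S x n).Nonempty := fun x n => by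
    obtain ⟨i, w, h⟩ := hd x _ (pow_ne_zero n ha0)
    exact ⟨_, i, w, h, rfl⟩
  have hch : ∀ x n, ∃ i w, x - d i = a ^ n * w ∧ N w ≤ sInf (S x n) + 1 := fun x n => by
    obtain ⟨r, ⟨i, w, h1, h2⟩, h3⟩ := Real.lt_sInf_add_pos (hne x n) one_pos
    exact ⟨i, w, h1, h2 ▸ h3.le⟩
  choose I W h1 h2 using hch
  refine mk_le_of_injective (f := fun x n => (I x n, sInf (S x n))) fun x y hxy => ?_
  by_contra hne'
  have e1 : ∀ n, I x n = I y n := fun n => (Prod.mk.inj (congrFun hxy n)).1
  have e2 : ∀ n, sInf (S x n) = sInf (S y n) := fun n => (Prod.mk.inj (congrFun hxy n)).2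
  have hu : x - y ≠ 0 := sub_ne_zero.2 hne'
  set q : ℕ → A := fun n => W x n - W y n
  have hq : ∀ n, x - y = a ^ n * q n := fun n => by
    rw [mul_sub, ← h1, ← h1, e1]; ring
  have hqN : ∀ n, N (q n) ≤ 2 * sInf (S x n) + 2 := fun n => by
    have := map_sub_le_add N (W x n) (W y n)
    have h3 := h2 x n
    have h4 := h2 y n
    rw [← e2] at h4
    linarith
  obtain ⟨i, w, hw⟩ := hd x _ (mul_ne_zero ha0 hu)
  have hw0 := apply_nonneg N w
  have hrec : ∀ n, N (q (n + 1)) + 1 ≤ (2 * N w + 3) * (N (q n) + 1) := fun n => by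
    have h3 : sInf (S x (n + 1)) ≤ N (q n * w) :=
      csInf_le (hb _ _) ⟨i, q n * w, by rw [hw, hq n]; ring, rfl⟩
    have h4 := map_mul_le_mul N (q n) w
    have h5 := hqN (n + 1)
    have h6 := apply_nonneg N (q n)
    nlinarith
  have hexp : ∀ n, N (q n) + 1 ≤ (2 * N w + 3) ^ n * (N (q 0) + 1) := fun n => by
    induction n with
    | zero => simp
    | succ n ih =>
      refine (hrec n).trans ?_
      rw [pow_succ', mul_assoc]
      exact mul_le_mul_of_nonneg_left ih (by linarith)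
  have hC : 0 < 2 * N w + 3 := by linarith
  have hsm := small_pow N a ha (ε := (2 * (2 * N w + 3))⁻¹) (by positivity)
  have hlim : Tendsto (fun n : ℕ => (2⁻¹ : ℝ) ^ n * (N (q 0) + 1)) atTop (𝓝 (0 * (N (q 0) + 1))) :=
    (tendsto_pow_atTop_nhds_zero_of_lt_one (by norm_num) (by norm_num)).mul_const _
  rw [zero_mul] at hlim
  have hle : N (x - y) ≤ 0 := by
    refine ge_of_tendsto hlim ?_
    filter_upwards [hsm] with n hn
    have h3 := map_mul_le_mul N (a ^ n) (q n)
    rw [← hq] at h3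
    calc N (x - y) ≤ N (a ^ n) * N (q n) := h3
      _ ≤ (2 * (2 * N w + 3))⁻¹ ^ n * ((2 * N w + 3) ^ n * (N (q 0) + 1)) :=
        mul_le_mul hn (by linarith [hexp n]) (apply_nonneg _ _) (by positivity)
      _ = _ := by
        rw [← mul_assoc, ← mul_pow]
        congr 2
        field_simp
  exact hu (eq_zero_of_map_eq_zero N (le_antisymm hle (apply_nonneg _ _)))

end Pool.Agent.P.MP_fe901c_an
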