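import Pool.Agent.P.MP_fe901c_an.Defs
import Pool.Agent.P.MP_fe901c_an.Norm

/-! The prime ideal attached to a generalized Cauchy net of points of an ultrapower of `Ω`. -/

namespace Pool.Agent.P.MP_fe901c_an

open Filter Topology Cardinal

/-- The data defining the prime ideal. -/
structure Sys (Ω X : Type) [TopologicalSpace Ω] where
  L : Filter X
  π : X → ℕ
  z : X → Ω
  ne : L.NeBot
  top : Tendsto π L atTop
  lift : ∀ (s : ℕ → ℂ) (C : ℝ), (∀ i, ‖s i‖ ≤ C) → ∃ S : C(Ω, ℂ), ∀ x, S (z x) = s (π x)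
  approx : ∀ (H : C(Ω, ℂ)) (ε : ℕ → ℝ), (∀ i, 0 < ε i) →
    ∃ y : ℕ → Ω, ∀ᶠ x in L, ‖H (z x) - H (y (π x))‖ ≤ ε (π x)
  ultra : ∀ T : ℕ → Prop, (∀ᶠ x in L, T (π x)) ∨ ∀ᶠ x in L, ¬ T (π x)

/-- Continuous division. -/
noncomputable def dv (p : ℂ × ℂ) : ℂ := p.1 * (starRingEnd ℂ) p.2 / ((max (‖p.2‖ ^ 2) ‖p.1‖ : ℝ) : ℂ)

theorem dv_norm (p : ℂ × ℂ) : ‖dv p‖ ≤ ‖p.2‖ := by
  rw [dv, norm_div, norm_mul, Complex.norm_conj, Complex.norm_real, Real.norm_eq_abs,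
    abs_of_nonneg (le_max_of_le_right (norm_nonneg _))]
  refine div_le_of_le_mul₀ (le_max_of_le_right (norm_nonneg _)) (norm_nonneg _) ?_
  rw [mul_comm]
  exact mul_le_mul_of_nonneg_left (le_max_right _ _) (norm_nonneg _)

theorem dv_cont : Continuous dv := by
  rw [continuous_iff_continuousAt]
  intro p
  by_cases h : max (‖p.2‖ ^ 2) ‖p.1‖ = 0
  · have h2 : p.2 = 0 := by
      have := le_max_left (‖p.2‖ ^ 2) ‖p.1‖
      rw [h] at this
      exact norm_eq_zero.1 (pow_eq_zero_iff (two_ne_zero)|>.1 (le_antisymm this (by positivity)))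
    have h3 : dv p = 0 := norm_le_zero_iff.1 ((dv_norm p).trans (by simp [h2]))
    rw [ContinuousAt, h3]
    refine squeeze_zero_norm dv_norm ?_
    have : Tendsto (fun q : ℂ × ℂ => ‖q.2‖) (𝓝 p) (𝓝 ‖p.2‖) := continuous_snd.norm.continuousAt
    simpa [h2] using this
  · refine ContinuousAt.div (by fun_prop) (by fun_prop) ?_
    exact_mod_cast h

theorem dv_mul {e h : ℂ} (H : ‖e‖ ≤ ‖h‖ ^ 2) : e = h * dv (e, h) := by
  by_cases h0 : h = 0
  · simp only [h0, norm_zero, ne_eq, OfNat.ofNat_ne_zero, not_false_eq_true, zero_pow,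
      norm_le_zero_iff] at H
    simp [h0, H]
  · have h1 : ((‖h‖ ^ 2 : ℝ) : ℂ) = h * (starRingEnd ℂ) h := by
      rw [Complex.mul_conj, Complex.normSq_eq_norm_sq]
    have h2 : (starRingEnd ℂ) h ≠ 0 := by simpa using h0
    simp only [dv, max_eq_left H, h1]
    field_simp

namespace Sys

variable {Ω X : Type} [TopologicalSpace Ω] [CompactSpace Ω] (S : Sys Ω X)

/-- The ideal. -/
def I : Ideal C(Ω, ℂ) where
  carrier := {H | ∀ ε : ℕ → ℝ, (∀ i, 0 < ε i) → ∀ᶠ x in S.L, ‖H (S.z x)‖ ≤ ε (S.π x)}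
  zero_mem' ε h := .of_forall fun x => by simpa using (h _).le
  add_mem' {a b} ha hb ε h := by
    filter_upwards [ha (fun i => ε i / 2) fun i => half_pos (h i),
      hb (fun i => ε i / 2) fun i => half_pos (h i)] with x h1 h2
    exact (norm_add_le _ _).trans (by linarith)
  smul_mem' c a ha ε h := by
    have hc : 0 < ‖c‖ + 1 := by positivity
    filter_upwards [ha (fun i => ε i / (‖c‖ + 1)) fun i => div_pos (h i) hc] with x h1
    rw [le_div_iff₀ hc] at h1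
    have h2 := c.norm_coe_le_norm (S.z x)
    have h3 := norm_nonneg (a (S.z x))
    simp only [smul_eq_mul, ContinuousMap.mul_apply, norm_mul]
    nlinarith

theorem mem_I {H : C(Ω, ℂ)} :
    H ∈ S.I ↔ ∀ ε : ℕ → ℝ, (∀ i, 0 < ε i) → ∀ᶠ x in S.L, ‖H (S.z x)‖ ≤ ε (S.π x) := Iff.rfl

theorem mem_of_zero {H : C(Ω, ℂ)} (h : ∀ᶠ x in S.L, H (S.z x) = 0) : H ∈ S.I := fun ε hε => by
  filter_upwards [h] with x hx
  simpa [hx] using (hε _).le

theorem not_mem {H : C(Ω, ℂ)} {ε : ℕ → ℝ} (hε : ∀ i, 0 < ε i)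
    (h : ∀ᶠ x in S.L, ε (S.π x) ≤ ‖H (S.z x)‖) : H ∉ S.I := fun hH => by
  have := S.ne
  obtain ⟨x, h1, h2⟩ := (h.and (hH (fun i => ε i / 2) fun i => half_pos (hε i))).exists
  linarith [hε (S.π x)]

theorem lower {H : C(Ω, ℂ)} (h : H ∉ S.I) :
    ∃ ε : ℕ → ℝ, (∀ i, 0 < ε i) ∧ ∀ᶠ x in S.L, ε (S.π x) ≤ ‖H (S.z x)‖ := by
  rw [mem_I] at h
  push Not at h
  obtain ⟨ε, hε, h⟩ := h
  have h3 : ∀ i, 0 < ε i / 3 := fun i => by linarith [hε i]
  obtain ⟨y, hy⟩ := S.approx H _ h3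
  refine ⟨_, h3, ?_⟩
  rcases S.ultra (fun i => ‖H (y i)‖ ≤ 2 * ε i / 3) with h1 | h1
  · obtain ⟨x, h4, h5, h6⟩ := (h.and_eventually (hy.and h1)).exists
    have := norm_sub_norm_le (H (S.z x)) (H (y (S.π x)))
    linarith
  · filter_upwards [hy, h1] with x h4 h5
    have := norm_sub_norm_le (H (y (S.π x))) (H (S.z x))
    rw [norm_sub_rev] at this
    linarith

theorem isPrime : S.I.IsPrime := by
  refine ⟨(Ideal.ne_top_iff_one _).2 (S.not_mem (ε := fun _ => 1) (fun _ => one_pos)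
    (.of_forall fun x => by simp)), fun {a b} hab => ?_⟩
  by_contra h
  push Not at h
  obtain ⟨ε, h1, h2⟩ := S.lower h.1
  obtain ⟨η, h3, h4⟩ := S.lower h.2
  refine S.not_mem (ε := fun i => ε i * η i) (fun i => mul_pos (h1 i) (h3 i)) ?_ hab
  filter_upwards [h2, h4] with x h5 h6
  rw [ContinuousMap.mul_apply, norm_mul]
  exact mul_le_mul h5 h6 (h3 _).le (norm_nonneg _)

theorem dvd_of_le {E H : C(Ω, ℂ)} (h : ∀ᶠ x in S.L, ‖E (S.z x)‖ ≤ ‖H (S.z x)‖ ^ 2) :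
    Ideal.Quotient.mk S.I H ∣ Ideal.Quotient.mk S.I E := by
  refine ⟨Ideal.Quotient.mk S.I ⟨fun w => dv (E w, H w), dv_cont.comp (by fun_prop)⟩, ?_⟩
  rw [← map_mul, Ideal.Quotient.eq]
  refine S.mem_of_zero ?_
  filter_upwards [h] with x hx
  exact sub_eq_zero.2 (dv_mul hx)

open Classical in
/-- A function with prescribed values. -/
noncomputable def lf (s : ℕ → ℂ) : C(Ω, ℂ) :=
  if h : ∃ F : C(Ω, ℂ), ∀ x, F (S.z x) = s (S.π x) then h.choose else 0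

omit [CompactSpace Ω] in
theorem lf_spec {s : ℕ → ℂ} {C : ℝ} (h : ∀ i, ‖s i‖ ≤ C) (x : X) : S.lf s (S.z x) = s (S.π x) := by
  have h1 := S.lift s C h
  rw [lf, dif_pos h1]
  exact h1.choose_spec x

theorem approx' (H : C(Ω, ℂ)) (ε : ℕ → ℝ) (hε : ∀ i, 0 < ε i) :
    ∃ s, ∀ᶠ x in S.L, ‖(H - S.lf s) (S.z x)‖ ≤ ε (S.π x) := by
  obtain ⟨y, hy⟩ := S.approx H ε hε
  refine ⟨fun i => H (y i), ?_⟩
  filter_upwards [hy] with x hx
  rwa [ContinuousMap.sub_apply, S.lf_spec fun i => H.norm_coe_le_norm _]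

theorem dense (x u : C(Ω, ℂ) ⧸ S.I) (hu : u ≠ 0) :
    ∃ s, u ∣ x - Ideal.Quotient.mk S.I (S.lf s) := by
  obtain ⟨H, rfl⟩ := Ideal.Quotient.mk_surjective u
  obtain ⟨F, rfl⟩ := Ideal.Quotient.mk_surjective x
  obtain ⟨ε, h1, h2⟩ := S.lower fun h => hu (Ideal.Quotient.eq_zero_iff_mem.2 h)
  obtain ⟨s, hs⟩ := S.approx' F (fun i => ε i ^ 2) fun i => pow_pos (h1 i) 2
  refine ⟨s, ?_⟩
  rw [← map_sub]
  refine S.dvd_of_le ?_
  filter_upwards [h2, hs] with x h3 h4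
  exact h4.trans (pow_le_pow_left₀ (h1 _).le h3 2)

/-- The basic infinitesimal. -/
noncomputable def inf : C(Ω, ℂ) := S.lf fun i => ((1 / (i + 1) : ℝ) : ℂ)

omit [CompactSpace Ω] in
theorem norm_inf (x : X) : ‖S.inf (S.z x)‖ = 1 / (S.π x + 1) := by
  have : ∀ i : ℕ, ‖((1 / (i + 1) : ℝ) : ℂ)‖ = 1 / (i + 1) := fun i => by
    rw [Complex.norm_real, Real.norm_of_nonneg (by positivity)]
  rw [inf, S.lf_spec (C := 1) fun i => (this i).trans_le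
    ((div_le_one (by positivity)).2 (by simp)), this]

theorem inf_not_mem : S.inf ∉ S.I :=
  S.not_mem (ε := fun i => 1 / (i + 1)) (fun i => by positivity)
    (.of_forall fun x => (S.norm_inf x).ge)

omit [CompactSpace Ω] in
theorem inf_small (C : ℝ) : ∀ᶠ x in S.L, C * ‖S.inf (S.z x)‖ ≤ 1 / 4 := by
  have h : Tendsto (fun i : ℕ => C * (1 / ((i : ℝ) + 1))) atTop (𝓝 (C * 0)) :=
    tendsto_one_div_add_atTop_nhds_zero_nat.const_mul C
  rw [mul_zero] at h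
  filter_upwards [S.top.eventually (h.eventually (ge_mem_nhds (show (0 : ℝ) < 1 / 4 by norm_num)))]
    with x hx
  rwa [S.norm_inf]

theorem unit (l : ℂ) : IsUnit (1 - l • Ideal.Quotient.mk S.I S.inf) := by
  have h : Ideal.Quotient.mk S.I (1 - l • S.inf) ∣ Ideal.Quotient.mk S.I ((1 / 2 : ℂ) • 1) := by
    refine S.dvd_of_le ?_
    filter_upwards [S.inf_small ‖l‖] with x hx
    have h1 := norm_sub_norm_le (1 : ℂ) (l * S.inf (S.z x))
    rw [norm_mul, norm_one] at h1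
    have h2 : 3 / 4 ≤ ‖(1 - l • S.inf) (S.z x)‖ := by
      simp only [ContinuousMap.sub_apply, ContinuousMap.one_apply, ContinuousMap.smul_apply,
        smul_eq_mul]
      linarith
    have h3 : ‖((1 / 2 : ℂ) • (1 : C(Ω, ℂ))) (S.z x)‖ = 1 / 2 := by simp
    rw [h3]
    nlinarith
  have h2 : IsUnit (Ideal.Quotient.mk S.I ((1 / 2 : ℂ) • 1)) := by
    refine IsUnit.map _ (IsUnit.of_mul_eq_one ((2 : ℂ) • 1) ?_)
    ext w
    simp
  exact isUnit_of_dvd_unit h h2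

theorem not_isMaximal : ¬ S.I.IsMaximal := fun h => by
  obtain ⟨b, c, hc, e⟩ := h.exists_inv S.inf_not_mem
  refine S.not_mem (ε := fun _ => 1 / 2) (fun _ => by norm_num) ?_ hc
  filter_upwards [S.inf_small ‖b‖] with x hx
  have h1 : b (S.z x) * S.inf (S.z x) + c (S.z x) = 1 := congrArg (fun F : C(Ω, ℂ) => F (S.z x)) e
  have h2 := norm_add_le (b (S.z x) * S.inf (S.z x)) (c (S.z x))
  rw [h1, norm_one, norm_mul] at h2
  have h3 := mul_le_mul_of_nonneg_right (b.norm_coe_le_norm (S.z x)) (norm_nonneg (S.inf (S.z x)))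
  linarith

theorem mk_seq : #(ℕ → ℂ) = 𝔠 := by simp

theorem not_normable (h : 𝔠 < #(C(Ω, ℂ) ⧸ S.I)) : IsEmpty (AlgebraNorm ℂ (C(Ω, ℂ) ⧸ S.I)) := by
  refine ⟨fun N => h.not_ge ?_⟩
  have := S.isPrime
  refine (card_le N _ (fun h => S.inf_not_mem (Ideal.Quotient.eq_zero_iff_mem.1 h)) S.unit _
    S.dense).trans ?_
  simp [mk_real]

theorem leMod {u v : C(Ω, ℂ)} {n : ℕ} (h : ∀ᶠ x in S.L, ‖u (S.z x)‖ ≤ n * ‖v (S.z x)‖) :
    LeMod S.I (modulus u) (n • modulus v) := by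
  refine S.mem_of_zero ?_
  filter_upwards [h] with x hx
  have e : (n • modulus v - modulus u) (S.z x) = ((n * ‖v (S.z x)‖ - ‖u (S.z x)‖ : ℝ) : ℂ) := by
    simp [modulus]
  change (n • modulus v - modulus u) (S.z x) - ((‖(n • modulus v - modulus u) (S.z x)‖ : ℝ) : ℂ) = 0
  rw [e, Complex.norm_real, Real.norm_of_nonneg (sub_nonneg.2 hx), sub_self]

theorem of_leMod {u v : C(Ω, ℂ)} {n : ℕ} (h : LeMod S.I (modulus u) (n • modulus v))
    (ε : ℕ → ℝ) (hε : ∀ i, 0 < ε i) :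
    ∀ᶠ x in S.L, ‖u (S.z x)‖ ≤ n * ‖v (S.z x)‖ + ε (S.π x) := by
  filter_upwards [h ε hε] with x hx
  have e : (n • modulus v - modulus u) (S.z x) = ((n * ‖v (S.z x)‖ - ‖u (S.z x)‖ : ℝ) : ℂ) := by
    simp [modulus]
  change ‖(n • modulus v - modulus u) (S.z x) -
    ((‖(n • modulus v - modulus u) (S.z x)‖ : ℝ) : ℂ)‖ ≤ _ at hx
  rw [e, ← Complex.ofReal_sub, Complex.norm_real, Complex.norm_real, Real.norm_eq_abs,
    Real.norm_eq_abs] at hx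
  have h1 := neg_abs_le (n * ‖v (S.z x)‖ - ‖u (S.z x)‖ - |n * ‖v (S.z x)‖ - ‖u (S.z x)‖|)
  have h2 := abs_nonneg (n * ‖v (S.z x)‖ - ‖u (S.z x)‖)
  linarith

theorem card_val_le : #(Quot (Arch S.I)) ≤ 𝔠 := by
  rw [← mk_seq]
  refine (mk_le_of_surjective (f := fun s : {s // Ideal.Quotient.mk S.I (S.lf s) ≠ 0} =>
    Quot.mk (Arch S.I) ⟨_, s.2⟩) ?_).trans (mk_subtype_le _)
  rintro ⟨a, ha⟩
  obtain ⟨H, rfl⟩ := Ideal.Quotient.mk_surjective a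
  obtain ⟨ε, h1, h2⟩ := S.lower fun h => ha (Ideal.Quotient.eq_zero_iff_mem.2 h)
  obtain ⟨s, hs⟩ := S.approx' H (fun i => ε i / 2) fun i => half_pos (h1 i)
  have key : ∀ᶠ x in S.L, ε (S.π x) / 2 ≤ ‖S.lf s (S.z x)‖ ∧
      ‖S.lf s (S.z x)‖ ≤ (2 : ℕ) * ‖H (S.z x)‖ ∧ ‖H (S.z x)‖ ≤ (2 : ℕ) * ‖S.lf s (S.z x)‖ := by
    filter_upwards [h2, hs] with x h3 h4
    rw [ContinuousMap.sub_apply] at h4
    have h5 := norm_sub_norm_le (H (S.z x)) (S.lf s (S.z x))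
    have h6 := norm_sub_norm_le (S.lf s (S.z x)) (H (S.z x))
    rw [norm_sub_rev] at h6
    have := h1 (S.π x)
    push_cast
    refine ⟨by linarith, by linarith, by linarith⟩
  refine ⟨⟨s, fun h => S.not_mem (fun i => half_pos (h1 i)) (key.mono fun x hx => hx.1)
    (Ideal.Quotient.eq_zero_iff_mem.1 h)⟩, Quot.sound ⟨_, _, rfl, rfl, 2,
      S.leMod (key.mono fun x hx => hx.2.1), S.leMod (key.mono fun x hx => hx.2.2)⟩⟩

/-- `a` is at least of the order of `t`. -/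
def Big (t : ℕ → ℝ) (H : C(Ω, ℂ)) : Prop := ∃ c > 0, ∀ᶠ x in S.L, c * t (S.π x) ≤ ‖H (S.z x)‖

omit [CompactSpace Ω] in
theorem Big.of_le {S : Sys Ω X} {t : ℕ → ℝ} (ht : ∀ i, 0 < t i) {u v : C(Ω, ℂ)} {n : ℝ}
    (hn : 0 ≤ n) (h : ∀ ε : ℕ → ℝ, (∀ i, 0 < ε i) →
      ∀ᶠ x in S.L, ‖u (S.z x)‖ ≤ n * ‖v (S.z x)‖ + ε (S.π x)) : S.Big t u → S.Big t v := by
  rintro ⟨c, hc, h1⟩
  refine ⟨c / (2 * (n + 1)), by positivity, ?_⟩
  filter_upwards [h1, h (fun i => c * t i / 2) fun i => by have := ht i; positivity] with x h2 h3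
  rw [div_mul_eq_mul_div, div_le_iff₀ (by positivity)]
  nlinarith [norm_nonneg (v (S.z x))]

theorem Big.congr {S : Sys Ω X} {t : ℕ → ℝ} (ht : ∀ i, 0 < t i) {u v : C(Ω, ℂ)}
    (h : Ideal.Quotient.mk S.I u = Ideal.Quotient.mk S.I v) : S.Big t u → S.Big t v := by
  refine Big.of_le ht zero_le_one fun ε hε => ?_
  filter_upwards [Ideal.Quotient.eq.1 h ε hε] with x hx
  have := norm_sub_norm_le (u (S.z x)) (v (S.z x))
  rw [ContinuousMap.sub_apply] at hx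
  linarith

theorem big_iff {t : ℕ → ℝ} (ht : ∀ i, 0 < t i) {u v : C(Ω, ℂ)} {hu hv}
    (h : Quot.mk (Arch S.I) ⟨Ideal.Quotient.mk S.I u, hu⟩ =
      Quot.mk (Arch S.I) ⟨Ideal.Quotient.mk S.I v, hv⟩) : S.Big t u → S.Big t v := by
  let B : {a : C(Ω, ℂ) ⧸ S.I // a ≠ 0} → Prop := fun a =>
    ∃ w, Ideal.Quotient.mk S.I w = a.1 ∧ S.Big t w
  have hB : ∀ a b, Arch S.I a b → B a = B b := by
    rintro a b ⟨f, g, hf, hg, n, h1, h2⟩
    refine propext ⟨fun ⟨w, h3, h4⟩ => ⟨g, hg, ?_⟩, fun ⟨w, h3, h4⟩ => ⟨f, hf, ?_⟩⟩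
    · exact (h4.congr ht (h3.trans hf.symm)).of_le ht n.cast_nonneg (S.of_leMod h1)
    · exact (h4.congr ht (h3.trans hg.symm)).of_le ht n.cast_nonneg (S.of_leMod h2)
  intro h1
  have h2 : B ⟨_, hu⟩ = B ⟨_, hv⟩ := congrArg (Quot.lift B hB) h
  obtain ⟨w, h3, h4⟩ := h2.mp ⟨u, rfl, h1⟩
  exact h4.congr ht h3

theorem card_val_gt : ℵ₀ < #(Quot (Arch S.I)) := by
  rw [aleph0_lt_mk_iff]
  refine ⟨fun hc => ?_⟩
  have hne : Nonempty (Quot (Arch S.I)) :=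
    ⟨Quot.mk _ ⟨_, fun h => S.inf_not_mem (Ideal.Quotient.eq_zero_iff_mem.1 h)⟩⟩
  obtain ⟨e, he⟩ := exists_surjective_nat (Quot (Arch S.I))
  have h1 : ∀ k, ∃ (H : C(Ω, ℂ)) (h : _), Quot.mk (Arch S.I) ⟨Ideal.Quotient.mk S.I H, h⟩ = e k :=
    fun k => by
      obtain ⟨⟨a, ha⟩, h⟩ := Quot.exists_rep (e k)
      obtain ⟨H, rfl⟩ := Ideal.Quotient.mk_surjective a
      exact ⟨H, ha, h⟩
  choose H hH h2 using h1
  choose ε h3 h4 using fun k => S.lower fun h => hH k (Ideal.Quotient.eq_zero_iff_mem.2 h)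
  let m : ℕ → ℝ := fun i => min 1 ((Finset.range (i + 1)).inf' (by simp) fun k => ε k i) / (i + 1)
  have hm : ∀ i, 0 < m i := fun i => div_pos (lt_min one_pos
    ((Finset.lt_inf'_iff _).2 fun k _ => h3 k i)) (by positivity)
  have hm1 : ∀ i, ‖(m i : ℂ)‖ ≤ 1 := fun i => by
    rw [Complex.norm_real, Real.norm_of_nonneg (hm i).le, div_le_one (by positivity)]
    exact (min_le_left _ _).trans (by simp)
  have hn : ∀ x, ‖S.lf (fun i => (m i : ℂ)) (S.z x)‖ = m (S.π x) := fun x => by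
    rw [S.lf_spec hm1, Complex.norm_real, Real.norm_of_nonneg (hm _).le]
  have hne0 : Ideal.Quotient.mk S.I (S.lf fun i => (m i : ℂ)) ≠ 0 := fun h =>
    S.not_mem hm (.of_forall fun x => (hn x).ge) (Ideal.Quotient.eq_zero_iff_mem.1 h)
  obtain ⟨k, hk⟩ := he (Quot.mk _ ⟨_, hne0⟩)
  obtain ⟨c, hc', h5⟩ := S.big_iff (h3 k) ((h2 k).trans hk) ⟨1, one_pos, by simpa using h4 k⟩
  have := S.ne
  obtain ⟨x, h6, h7, h8⟩ := (h5.and ((S.inf_small c⁻¹).and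
    (S.top.eventually (eventually_ge_atTop k)))).exists
  rw [hn] at h6
  rw [S.norm_inf, inv_mul_le_iff₀ hc'] at h7
  have h9 : m (S.π x) ≤ ε k (S.π x) * (1 / (S.π x + 1)) := by
    rw [mul_one_div]
    exact div_le_div_of_nonneg_right ((min_le_right _ _).trans
      (Finset.inf'_le _ (Finset.mem_range.2 (by omega)))) (by positivity)
  have h10 := h3 k (S.π x)
  nlinarith [mul_le_mul_of_nonneg_left h7 h10.le, mul_pos hc' h10]

end Sys

end Pool.Agent.P.MP_fe901c_an
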